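import Pool.Agent.H47.Tri.Skel

/-!
# Basic facts on counterclockwise polygons
-/

namespace Pool.H47.Tri

variable {n : ℕ}

theorem orient_cyc (p q r : Pt) : orient p q r = orient q r p := by unfold orient; ring
theorem orient_swap (p q r : Pt) : orient q p r = - orient p q r := by unfold orient; ring
theorem orient_swap' (p q r : Pt) : orient p r q = - orient p q r := by unfold orient; ring
@[simp] theorem orient_self₁ (p q : Pt) : orient p p q = 0 := by unfold orient; ring
@[simp] theorem orient_self₂ (p q : Pt) : orient p q p = 0 := by unfold orient; ring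
@[simp] theorem orient_self₃ (p q : Pt) : orient p q q = 0 := by unfold orient; ring

theorem orient_comb (p q x y : Pt) (a b : ℝ) (h : a + b = 1) :
    orient p q (a • x + b • y) = a * orient p q x + b * orient p q y := by
  have hb : b = 1 - a := by linarith
  subst hb
  simp only [orient, Prod.fst_add, Prod.snd_add, Prod.smul_fst, Prod.smul_snd, smul_eq_mul]
  ring

theorem orient_add_smul (p q x v : Pt) (s : ℝ) :
    orient p q (x + s • v) = orient p q x + s * cross (q - p) v := by
  simp only [orient, cross, Prod.fst_add, Prod.snd_add, Prod.smul_fst, Prod.smul_snd, smul_eq_mul,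
    Prod.fst_sub, Prod.snd_sub]
  ring

theorem continuous_orient (p q : Pt) : Continuous (fun x => orient p q x) := by
  unfold orient; fun_prop

/-- `(i, j)` is a side of the polygon, traversed counterclockwise. -/
def IsSide (P : Fin n → Pt) (i j : Fin n) : Prop :=
  i ≠ j ∧ ∀ k, k ≠ i → k ≠ j → 0 < orient (P i) (P j) (P k)

theorem mem_inside {P : Fin n → Pt} {x : Pt} :
    x ∈ inside P ↔ ∀ i j, IsSide P i j → 0 < orient (P i) (P j) x :=
  ⟨fun h i j hij => h i j hij.1 hij.2, fun h i j h1 h2 => h i j ⟨h1, h2⟩⟩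

theorem exists_succ (hn : 3 ≤ n) {P : Fin n → Pt} (hP : Ccw P) (i : Fin n) :
    ∃ j, IsSide P i j := by
  by_cases hi : i.val + 1 < n
  · refine ⟨⟨i.val + 1, hi⟩, ?_, ?_⟩
    · intro h; have := congrArg Fin.val h; simp at this
    · intro k hki hkj
      have hlt : i < (⟨i.val + 1, hi⟩ : Fin n) := by rw [Fin.lt_def]; simp
      have h1 : k.val ≠ i.val := fun h => hki (Fin.ext h)
      have h2 : k.val ≠ i.val + 1 := fun h => hkj (Fin.ext h)
      rcases lt_or_gt_of_ne h1 with h | h
      · rw [← orient_cyc]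
        exact hP k i _ (by rw [Fin.lt_def]; exact h) hlt
      · exact hP i _ k hlt (by rw [Fin.lt_def]; simp; omega)
  · refine ⟨⟨0, by omega⟩, ?_, ?_⟩
    · intro h; have := congrArg Fin.val h; simp at this; omega
    · intro k hki hkj
      have h1 : k.val ≠ i.val := fun h => hki (Fin.ext h)
      have h2 : k.val ≠ 0 := fun h => hkj (Fin.ext h)
      rw [orient_cyc]
      exact hP _ k i (by rw [Fin.lt_def]; simp; omega) (by rw [Fin.lt_def]; omega)

theorem exists_pred (hn : 3 ≤ n) {P : Fin n → Pt} (hP : Ccw P) (j : Fin n) :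
    ∃ i, IsSide P i j := by
  by_cases hj : 0 < j.val
  · refine ⟨⟨j.val - 1, by omega⟩, ?_, ?_⟩
    · intro h; have := congrArg Fin.val h; simp at this; omega
    · intro k hki hkj
      have hlt : (⟨j.val - 1, by omega⟩ : Fin n) < j := by rw [Fin.lt_def]; simp; omega
      have h1 : k.val ≠ j.val - 1 := fun h => hki (Fin.ext h)
      have h2 : k.val ≠ j.val := fun h => hkj (Fin.ext h)
      rcases lt_or_gt_of_ne h2 with h | h
      · rw [← orient_cyc]
        exact hP k _ j (by rw [Fin.lt_def]; simp; omega) hlt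
      · exact hP _ j k hlt (by rw [Fin.lt_def]; exact h)
  · refine ⟨⟨n - 1, by omega⟩, ?_, ?_⟩
    · intro h; have := congrArg Fin.val h; simp at this; omega
    · intro k hki hkj
      have h1 : k.val ≠ n - 1 := fun h => hki (Fin.ext h)
      have h2 : k.val ≠ j.val := fun h => hkj (Fin.ext h)
      rw [orient_cyc]
      exact hP j k _ (by rw [Fin.lt_def]; omega) (by rw [Fin.lt_def]; simp; omega)

theorem orient_ne {P : Fin n → Pt} (hP : Ccw P) {i j k : Fin n} (hij : i ≠ j) (hik : i ≠ k)
    (hjk : j ≠ k) : orient (P i) (P j) (P k) ≠ 0 := by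
  intro h0
  rcases lt_or_gt_of_ne hij with h1 | h1 <;> rcases lt_or_gt_of_ne hik with h2 | h2 <;>
    rcases lt_or_gt_of_ne hjk with h3 | h3
  · have h := hP i j k h1 h3; unfold orient at h h0; linarith
  · have h := hP i k j h2 h3; unfold orient at h h0; linarith
  · exact absurd (lt_trans h1 h3) (not_lt.mpr h2.le)
  · have h := hP k i j h2 h1; unfold orient at h h0; linarith
  · have h := hP j i k h1 h2; unfold orient at h h0; linarith
  · exact absurd (lt_trans h2 h3) (not_lt.mpr h1.le)
  · have h := hP j k i h3 h2; unfold orient at h h0; linarith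
  · have h := hP k j i h3 h1; unfold orient at h h0; linarith

theorem ccw_ne (hn : 3 ≤ n) {P : Fin n → Pt} (hP : Ccw P) {i j : Fin n} (hij : i ≠ j) :
    P i ≠ P j := by
  intro h
  obtain ⟨k, hk⟩ : ∃ k : Fin n, k ≠ i ∧ k ≠ j := by
    have : ({i, j} : Finset (Fin n)).card < Fintype.card (Fin n) := by
      rw [Fintype.card_fin]; exact lt_of_le_of_lt Finset.card_le_two (by omega)
    obtain ⟨k, hk⟩ := Finset.exists_mem_notMem_of_card_lt_card
      (s := ({i, j} : Finset (Fin n))) (t := Finset.univ) (by rwa [Finset.card_univ])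
    exact ⟨k, by simpa using hk.2⟩
  exact orient_ne hP hij hk.1.symm hk.2.symm (by rw [h]; simp)

theorem exists_third (hn : 3 ≤ n) (i j : Fin n) : ∃ k : Fin n, k ≠ i ∧ k ≠ j := by
  have : ({i, j} : Finset (Fin n)).card < Fintype.card (Fin n) := by
    rw [Fintype.card_fin]; exact lt_of_le_of_lt Finset.card_le_two (by omega)
  obtain ⟨k, hk⟩ := Finset.exists_mem_notMem_of_card_lt_card
    (s := ({i, j} : Finset (Fin n))) (t := Finset.univ) (by rwa [Finset.card_univ])
  exact ⟨k, by simpa using hk.2⟩

theorem IsSide.asymm (hn : 3 ≤ n) {P : Fin n → Pt} {i j : Fin n} (h : IsSide P i j)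
    (h' : IsSide P j i) : False := by
  obtain ⟨k, hki, hkj⟩ := exists_third hn i j
  have h1 := h.2 k hki hkj
  have h2 := h'.2 k hkj hki
  rw [orient_swap] at h2
  linarith

/-- For `i ≠ j` there is a side whose line passes through `P i` and has `P j` strictly on its
left. -/
theorem exists_sideAt (hn : 3 ≤ n) {P : Fin n → Pt} (hP : Ccw P) {i j : Fin n} (hij : i ≠ j) :
    ∃ a b, IsSide P a b ∧ orient (P a) (P b) (P i) = 0 ∧ 0 < orient (P a) (P b) (P j) := by
  obtain ⟨s, hs⟩ := exists_succ hn hP i
  by_cases hsj : j = s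
  · subst hsj
    obtain ⟨h, hh⟩ := exists_pred hn hP i
    refine ⟨h, i, hh, by simp, hh.2 j ?_ hij.symm⟩
    rintro rfl
    exact hs.asymm hn hh
  · exact ⟨i, s, hs, by simp, hs.2 j hij.symm hsj⟩

/-- Points on the line through two distinct points. -/
theorem exists_param {p q x : Pt} (hpq : p ≠ q) (h : orient p q x = 0) :
    ∃ t : ℝ, x = (1 - t) • p + t • q := by
  have hd : 0 < (q.1 - p.1) ^ 2 + (q.2 - p.2) ^ 2 := by
    rcases eq_or_ne (q.1 - p.1) 0 with h1 | h1
    · have h2 : q.2 - p.2 ≠ 0 := by
        intro h2; apply hpq; ext <;> linarith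
      positivity
    · positivity
  refine ⟨((x.1 - p.1) * (q.1 - p.1) + (x.2 - p.2) * (q.2 - p.2)) /
    ((q.1 - p.1) ^ 2 + (q.2 - p.2) ^ 2), ?_⟩
  unfold orient at h
  ext
  · simp only [Prod.fst_add, Prod.smul_fst, smul_eq_mul]
    field_simp
    linear_combination (-(q.2 - p.2)) * h
  · simp only [Prod.snd_add, Prod.smul_snd, smul_eq_mul]
    field_simp
    linear_combination (q.1 - p.1) * h

theorem orient_param (p q a b : Pt) (t : ℝ) :
    orient p q ((1 - t) • a + t • b) = (1 - t) * orient p q a + t * orient p q b :=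
  orient_comb p q a b (1 - t) t (by ring)

/-- The closed polygon. -/
def closedHull (P : Fin n → Pt) : Set Pt := {x | ∀ i j, IsSide P i j → 0 ≤ orient (P i) (P j) x}

theorem inside_sub_closedHull (P : Fin n → Pt) : inside P ⊆ closedHull P := fun x hx i j hij =>
  (mem_inside.mp hx i j hij).le

theorem vertex_mem_closedHull (P : Fin n → Pt) (k : Fin n) : P k ∈ closedHull P := by
  intro i j hij
  by_cases h1 : k = i
  · subst h1; simp
  by_cases h2 : k = j
  · subst h2; simp
  · exact (hij.2 k h1 h2).le

theorem convex_closedHull (P : Fin n → Pt) : Convex ℝ (closedHull P) := by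
  intro x hx y hy a b ha hb hab i j hij
  rw [orient_comb _ _ _ _ _ _ hab]
  have := hx i j hij
  have := hy i j hij
  positivity

/-- A point of the closed polygon on the line of two vertices is on the segment. -/
theorem mem_segment_of_closedHull (hn : 3 ≤ n) {P : Fin n → Pt} (hP : Ccw P) {i j : Fin n}
    (hij : i ≠ j) {x : Pt} (hx : x ∈ closedHull P) (h0 : orient (P i) (P j) x = 0) :
    ∃ t : ℝ, 0 ≤ t ∧ t ≤ 1 ∧ x = (1 - t) • P i + t • P j := by
  obtain ⟨t, ht⟩ := exists_param (ccw_ne hn hP hij) h0
  refine ⟨t, ?_, ?_, ht⟩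
  · obtain ⟨a, b, hs, h1, h2⟩ := exists_sideAt hn hP hij
    have h := hx a b hs
    rw [ht, orient_param, h1] at h
    by_contra hneg
    have : t * orient (P a) (P b) (P j) < 0 := mul_neg_of_neg_of_pos (not_le.mp hneg) h2
    linarith
  · obtain ⟨a, b, hs, h1, h2⟩ := exists_sideAt hn hP hij.symm
    have h := hx a b hs
    rw [ht, orient_param, h1] at h
    by_contra hneg
    have : (1 - t) * orient (P a) (P b) (P i) < 0 :=
      mul_neg_of_neg_of_pos (by linarith [not_le.mp hneg]) h2
    linarith

/-- A point strictly inside the polygon on the line of two vertices is strictly between them. -/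
theorem mem_openSegment_of_inside (hn : 3 ≤ n) {P : Fin n → Pt} (hP : Ccw P) {i j : Fin n}
    (hij : i ≠ j) {x : Pt} (hx : x ∈ inside P) (h0 : orient (P i) (P j) x = 0) :
    ∃ t : ℝ, 0 < t ∧ t < 1 ∧ x = (1 - t) • P i + t • P j := by
  obtain ⟨t, ht⟩ := exists_param (ccw_ne hn hP hij) h0
  refine ⟨t, ?_, ?_, ht⟩
  · obtain ⟨a, b, hs, h1, h2⟩ := exists_sideAt hn hP hij
    have h := mem_inside.mp hx a b hs
    rw [ht, orient_param, h1] at h
    by_contra hneg
    have : t * orient (P a) (P b) (P j) ≤ 0 :=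
      mul_nonpos_of_nonpos_of_nonneg (not_lt.mp hneg) h2.le
    linarith
  · obtain ⟨a, b, hs, h1, h2⟩ := exists_sideAt hn hP hij.symm
    have h := mem_inside.mp hx a b hs
    rw [ht, orient_param, h1] at h
    by_contra hneg
    have : (1 - t) * orient (P a) (P b) (P i) ≤ 0 :=
      mul_nonpos_of_nonpos_of_nonneg (by linarith [not_lt.mp hneg]) h2.le
    linarith

theorem vertex_notMem_inside (hn : 3 ≤ n) {P : Fin n → Pt} (hP : Ccw P) (i : Fin n) :
    P i ∉ inside P := by
  intro h
  obtain ⟨j, hj⟩ := exists_succ hn hP i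
  have := mem_inside.mp h i j hj
  simp at this

theorem drawing_sub_closedHull (P : Fin n → Pt) : drawing P ⊆ closedHull P := by
  intro x hx
  simp only [drawing, Set.mem_iUnion] at hx
  obtain ⟨i, j, hx⟩ := hx
  exact (convex_closedHull P).segment_subset (vertex_mem_closedHull P i)
    (vertex_mem_closedHull P j) hx

theorem param_mem_segment {p q : Pt} {t : ℝ} (h0 : 0 ≤ t) (h1 : t ≤ 1) :
    (1 - t) • p + t • q ∈ segment ℝ p q :=
  ⟨1 - t, t, by linarith, h0, by ring, rfl⟩

theorem mem_drawing {P : Fin n → Pt} {x : Pt} {i j : Fin n} (h : x ∈ segment ℝ (P i) (P j)) :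
    x ∈ drawing P := by
  simp only [drawing, Set.mem_iUnion]
  exact ⟨i, j, h⟩

theorem isOpen_inside (P : Fin n → Pt) : IsOpen (inside P) := by
  have : inside P = ⋂ i, ⋂ j, {x | IsSide P i j → 0 < orient (P i) (P j) x} := by
    ext x; simp [mem_inside]
  rw [this]
  refine isOpen_iInter_of_finite fun i => isOpen_iInter_of_finite fun j => ?_
  by_cases h : IsSide P i j
  · simpa [h] using isOpen_lt continuous_const (continuous_orient (P i) (P j))
  · simp [h]

theorem isClosed_closedHull (P : Fin n → Pt) : IsClosed (closedHull P) := by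
  have : closedHull P = ⋂ i, ⋂ j, {x | IsSide P i j → 0 ≤ orient (P i) (P j) x} := by
    ext x; simp [closedHull]
  rw [this]
  refine isClosed_iInter fun i => isClosed_iInter fun j => ?_
  by_cases h : IsSide P i j
  · simpa [h] using isClosed_le continuous_const (continuous_orient (P i) (P j))
  · simp [h]

end Pool.H47.Tri
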