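import Pool.Agent.H47.Tri.Defs

/-!
# Working definitions and module statements for the lower bound (MP_c17047_co)
-/

namespace Pool.H47.Tri

variable {n : ℕ}

/-- `p` is strictly inside the polygon and lies on two different lines through two vertices. -/
def crossings (P : Fin n → Pt) : Set Pt :=
  {p | p ∈ inside P ∧ ∃ i j k l : Fin n, i < j ∧ k < l ∧ (i, j) ≠ (k, l) ∧
    orient (P i) (P j) p = 0 ∧ orient (P k) (P l) p = 0}

/-- The arrangement vertices: polygon vertices and crossing points. -/
def verts (P : Fin n → Pt) : Set Pt := Set.range P ∪ crossings P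

open Classical in
/-- The lines (pairs of vertices) through `p`. -/
noncomputable def lns (P : Fin n → Pt) (p : Pt) : Finset (Fin n × Fin n) :=
  Finset.univ.filter (fun e => e.1 < e.2 ∧ orient (P e.1) (P e.2) p = 0)

/-- The closed cell of `x`. -/
def ccell (P : Fin n → Pt) (x : Pt) : Set Pt :=
  {y | ∀ i j : Fin n, 0 ≤ orient (P i) (P j) x * orient (P i) (P j) y}

/-- The corners of the cell of `x`. -/
def corners (P : Fin n → Pt) (x : Pt) : Set Pt := {p | p ∈ verts P ∧ p ∈ ccell P x}

/-- `p` and `q` lie on a common line of the arrangement. -/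
def OnLine (P : Fin n → Pt) (p q : Pt) : Prop :=
  ∃ i j : Fin n, i < j ∧ orient (P i) (P j) p = 0 ∧ orient (P i) (P j) q = 0

/-- Cross product. -/
def cross (u v : Pt) : ℝ := u.1 * v.2 - u.2 * v.1

/-- Lexicographically positive vectors (tie break for parallel lines). -/
def LexPos (u : Pt) : Prop := 0 < u.1 ∨ (u.1 = 0 ∧ 0 < u.2)

/-- `p q` is a side of the cell of `x` (cell on the left of `p → q`) whose two neighbouring side
lines `p a`, `q b` converge on the side of the cell (angle sum `< π`), with a tie break when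
they are parallel. -/
def Flag (P : Fin n → Pt) (x p q : Pt) : Prop :=
  p ∈ corners P x ∧ q ∈ corners P x ∧ p ≠ q ∧ OnLine P p q ∧ 0 < orient p q x ∧
  ∃ a b : Pt, a ∈ corners P x ∧ b ∈ corners P x ∧ OnLine P p a ∧ OnLine P q b ∧
    0 < orient p q a ∧ 0 < orient p q b ∧
    (0 < cross (a - p) (b - q) ∨ (cross (a - p) (b - q) = 0 ∧ LexPos (a - p)))

/-- A finite system of representatives of the cells inside the polygon. -/
structure IsReps (P : Fin n → Pt) (R : Finset Pt) : Prop where
  off : ∀ x ∈ R, x ∈ offLines P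
  uniq : ∀ x ∈ R, ∀ y ∈ R, y ∈ cell P x → x = y
  ex : ∀ x ∈ offLines P, ∃ y ∈ R, y ∈ cell P x

/-- `Vc` is the finite set of all crossing points. -/
def IsCross (P : Fin n → Pt) (Vc : Finset Pt) : Prop := ∀ p, p ∈ Vc ↔ p ∈ crossings P

end Pool.H47.Tri
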