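import Mathlib

/-!
# Convex drawings of `K_n` and their triangular faces (MP_c17047_co): definitions

The plane is `ℝ × ℝ`.  A straight-line drawing of `K_n` is given by its vertices
`P : Fin n → ℝ × ℝ`.
-/

namespace Pool.H47.Tri

/-- The plane. -/
abbrev Pt := ℝ × ℝ

/-- Twice the signed area of the triangle `p q r`; positive iff `p, q, r` is a
counterclockwise triangle, zero iff the points are collinear. -/
def orient (p q r : Pt) : ℝ := (q.1 - p.1) * (r.2 - p.2) - (q.2 - p.2) * (r.1 - p.1)

/-- The point set of the drawing: the union of all edges, drawn as straight segments. -/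
def drawing {n : ℕ} (P : Fin n → Pt) : Set Pt := ⋃ i, ⋃ j, segment ℝ (P i) (P j)

/-- Strictly convex position: no vertex lies in the convex hull of other vertices. -/
def IsConvexDrawing {n : ℕ} (P : Fin n → Pt) : Prop := ConvexIndependent ℝ P

/-- Generic drawing: no three edges pass through a common point other than a vertex. -/
def IsGeneric {n : ℕ} (P : Fin n → Pt) : Prop :=
  ∀ x : Pt, x ∉ Set.range P → ∀ i j k l r s : Fin n, i < j → k < l → r < s →
    x ∈ segment ℝ (P i) (P j) → x ∈ segment ℝ (P k) (P l) → x ∈ segment ℝ (P r) (P s) →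
    (i, j) = (k, l) ∨ (i, j) = (r, s) ∨ (k, l) = (r, s)

/-- A face is a bounded connected component of the complement of the drawing. -/
def IsFace {n : ℕ} (P : Fin n → Pt) (F : Set Pt) : Prop :=
  ∃ x : Pt, x ∉ drawing P ∧ F = connectedComponentIn (drawing P)ᶜ x ∧ Bornology.IsBounded F

/-- The open region bounded by a nondegenerate triangle. -/
def IsOpenTriangle (F : Set Pt) : Prop :=
  ∃ A B C : Pt, orient A B C ≠ 0 ∧ F = interior (convexHull ℝ {A, B, C})

/-- The set of triangular faces (3-faces) of the drawing. -/
def triFaces {n : ℕ} (P : Fin n → Pt) : Set (Set Pt) := {F | IsFace P F ∧ IsOpenTriangle F}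

/-- The number of 3-faces of the drawing. -/
noncomputable def numTri {n : ℕ} (P : Fin n → Pt) : ℕ∞ := (triFaces P).encard

/-- Counterclockwise labelled strictly convex polygon (working hypothesis of the proofs). -/
def Ccw {n : ℕ} (P : Fin n → Pt) : Prop := ∀ i j k : Fin n, i < j → j < k → 0 < orient (P i) (P j) (P k)

/-- The open region inside the polygon: strictly to the left of every directed pair `(i, j)`
which has all the other vertices strictly on its left (the sides of the polygon). -/
def inside {n : ℕ} (P : Fin n → Pt) : Set Pt :=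
  {x | ∀ i j : Fin n, i ≠ j → (∀ k, k ≠ i → k ≠ j → 0 < orient (P i) (P j) (P k)) →
    0 < orient (P i) (P j) x}

/-- Points inside the polygon lying on no line through two vertices. -/
def offLines {n : ℕ} (P : Fin n → Pt) : Set Pt :=
  {x | x ∈ inside P ∧ ∀ i j : Fin n, i ≠ j → orient (P i) (P j) x ≠ 0}

/-- The cell of `x` in the arrangement of all lines through two vertices. -/
def cell {n : ℕ} (P : Fin n → Pt) (x : Pt) : Set Pt :=
  {y | ∀ i j : Fin n, i ≠ j → 0 < orient (P i) (P j) x * orient (P i) (P j) y}

end Pool.H47.Tri
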