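import Pool.Agent.H47.Tri.Basic

/-!
# Faces of a convex drawing are the cells of the line arrangement inside the polygon
-/

namespace Pool.H47.Tri

variable {n : ℕ}

theorem triangle_comb {A B C x : Pt} (hD : 0 < orient A B C) (h1 : 0 ≤ orient A B x)
    (h2 : 0 ≤ orient B C x) (h3 : 0 ≤ orient C A x) :
    ∃ a b c : ℝ, 0 ≤ a ∧ 0 ≤ b ∧ 0 ≤ c ∧ a + b + c = 1 ∧ x = a • A + b • B + c • C := by
  have hsum : orient B C x + orient C A x + orient A B x = orient A B C := by
    unfold orient; ring
  refine ⟨orient B C x / orient A B C, orient C A x / orient A B C, orient A B x / orient A B C,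
    by positivity, by positivity, by positivity, ?_, ?_⟩
  · rw [← add_div, ← add_div, hsum, div_self hD.ne']
  · ext
    · simp only [Prod.fst_add, Prod.smul_fst, smul_eq_mul]
      field_simp
      unfold orient; ring
    · simp only [Prod.snd_add, Prod.smul_snd, smul_eq_mul]
      field_simp
      unfold orient; ring

theorem triangle_mem_convexHull {A B C x : Pt} (hD : 0 < orient A B C) (h1 : 0 ≤ orient A B x)
    (h2 : 0 ≤ orient B C x) (h3 : 0 ≤ orient C A x) : x ∈ convexHull ℝ {A, B, C} := by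
  obtain ⟨a, b, c, ha, hb, hc, hs, rfl⟩ := triangle_comb hD h1 h2 h3
  have hA : A ∈ convexHull ℝ ({A, B, C} : Set Pt) := subset_convexHull _ _ (by simp)
  have hB : B ∈ convexHull ℝ ({A, B, C} : Set Pt) := subset_convexHull _ _ (by simp)
  have hC : C ∈ convexHull ℝ ({A, B, C} : Set Pt) := subset_convexHull _ _ (by simp)
  have := (convex_convexHull ℝ ({A, B, C} : Set Pt)).sum_mem (t := Finset.univ)
    (w := ![a, b, c]) (z := ![A, B, C]) (by intro i _; fin_cases i <;> simpa)
    (by simp [Fin.sum_univ_three, hs]) (by intro i _; fin_cases i <;> simpa)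
  simpa [Fin.sum_univ_three] using this

theorem side_succ {P : Fin n → Pt} (hP : Ccw P) {i : Fin n} (hi : i.val + 1 < n) :
    IsSide P i ⟨i.val + 1, hi⟩ := by
  refine ⟨?_, ?_⟩
  · intro h; have := congrArg Fin.val h; simp at this
  · intro k hki hkj
    have hlt : i < (⟨i.val + 1, hi⟩ : Fin n) := by rw [Fin.lt_def]; simp
    have h1 : k.val ≠ i.val := fun h => hki (Fin.ext h)
    have h2 : k.val ≠ i.val + 1 := fun h => hkj (Fin.ext h)
    rcases lt_or_gt_of_ne h1 with h | h
    · rw [← orient_cyc]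
      exact hP k i _ (by rw [Fin.lt_def]; exact h) hlt
    · exact hP i _ k hlt (by rw [Fin.lt_def]; simp; omega)

theorem side_last (hn : 3 ≤ n) {P : Fin n → Pt} (hP : Ccw P) :
    IsSide P ⟨n - 1, by omega⟩ ⟨0, by omega⟩ := by
  refine ⟨?_, ?_⟩
  · intro h; have := congrArg Fin.val h; simp at this; omega
  · intro k hki hkj
    have h1 : k.val ≠ n - 1 := fun h => hki (Fin.ext h)
    have h2 : k.val ≠ 0 := fun h => hkj (Fin.ext h)
    rw [orient_cyc]
    exact hP _ k _ (by rw [Fin.lt_def]; simp; omega) (by rw [Fin.lt_def]; simp; omega)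

theorem closedHull_sub_convexHull (hn : 3 ≤ n) {P : Fin n → Pt} (hP : Ccw P) :
    closedHull P ⊆ convexHull ℝ (Set.range P) := by
  intro x hx
  -- the fan from `P 0`
  have hlast := hx _ _ (side_last hn hP)
  rw [orient_swap] at hlast
  have hex : ∃ m : ℕ, 2 ≤ m ∧ ∃ h : m < n, orient (P ⟨0, by omega⟩) (P ⟨m, h⟩) x ≤ 0 :=
    ⟨n - 1, by omega, by omega, by linarith⟩
  classical
  obtain ⟨hm2, hmn, hm0⟩ := Nat.find_spec hex
  set m := Nat.find hex with hm
  have hprev : 0 ≤ orient (P ⟨0, by omega⟩) (P ⟨m - 1, by omega⟩) x := by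
    by_cases h2 : m = 2
    · have := hx _ _ (side_succ hP (i := ⟨0, by omega⟩) (by simp; omega))
      convert this using 3
      simp [h2]
    · have := Nat.find_min hex (m := m - 1) (by omega)
      by_contra hneg
      exact this ⟨by omega, by omega, (not_le.mp hneg).le⟩
  have hside : 0 ≤ orient (P ⟨m - 1, by omega⟩) (P ⟨m, hmn⟩) x := by
    have := hx _ _ (side_succ hP (i := ⟨m - 1, by omega⟩) (by simp; omega))
    convert this using 3
    simp; omega
  have hD : 0 < orient (P ⟨0, by omega⟩) (P ⟨m - 1, by omega⟩) (P ⟨m, hmn⟩) :=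
    hP _ _ _ (by rw [Fin.lt_def]; simp; omega) (by rw [Fin.lt_def]; simp; omega)
  have := triangle_mem_convexHull hD hprev hside (by rw [orient_swap]; linarith)
  refine convexHull_mono ?_ this
  rintro y (rfl | rfl | rfl) <;> exact ⟨_, rfl⟩

theorem isBounded_closedHull (hn : 3 ≤ n) {P : Fin n → Pt} (hP : Ccw P) :
    Bornology.IsBounded (closedHull P) :=
  ((Set.finite_range P).isCompact_convexHull (𝕜 := ℝ)).isBounded.subset
    (closedHull_sub_convexHull hn hP)

theorem inside_notMem_drawing (hn : 3 ≤ n) {P : Fin n → Pt} (hP : Ccw P) {x : Pt}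
    (hx : x ∈ inside P) : x ∉ drawing P ↔ x ∈ offLines P := by
  constructor
  · intro h
    refine ⟨hx, fun i j hij h0 => h ?_⟩
    obtain ⟨t, ht0, ht1, rfl⟩ := mem_openSegment_of_inside hn hP hij hx h0
    exact mem_drawing (param_mem_segment ht0.le ht1.le)
  · intro h hd
    simp only [drawing, Set.mem_iUnion] at hd
    obtain ⟨i, j, hseg⟩ := hd
    by_cases hij : i = j
    · subst hij
      rw [segment_same, Set.mem_singleton_iff] at hseg
      exact vertex_notMem_inside hn hP i (hseg ▸ hx)
    · obtain ⟨a, b, ha, hb, hab, rfl⟩ := hseg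
      exact h.2 i j hij (by rw [orient_comb _ _ _ _ _ _ hab]; simp)

theorem outside_or_inside (hn : 3 ≤ n) {P : Fin n → Pt} (hP : Ccw P) {x : Pt}
    (hx : x ∉ drawing P) : x ∈ inside P ∨ ∃ i j, IsSide P i j ∧ orient (P i) (P j) x < 0 := by
  by_contra hcon
  push Not at hcon
  obtain ⟨h1, h2⟩ := hcon
  apply h1
  rw [mem_inside]
  intro i j hij
  rcases (h2 i j hij).lt_or_eq with h | h
  · exact h
  · exfalso
    obtain ⟨t, ht0, ht1, rfl⟩ := mem_segment_of_closedHull hn hP hij.1 (fun a b hab => h2 a b hab)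
      h.symm
    exact hx (mem_drawing (param_mem_segment ht0 ht1))

theorem cell_sub_offLines {P : Fin n → Pt} {x y : Pt}
    (hx : x ∈ offLines P) (hy : y ∈ cell P x) : y ∈ offLines P := by
  refine ⟨mem_inside.mpr fun i j hij => ?_, fun i j hij h0 => ?_⟩
  · have h1 := mem_inside.mp hx.1 i j hij
    have h2 := hy i j hij.1
    exact (pos_iff_pos_of_mul_pos h2).mp h1
  · have h2 := hy i j hij
    rw [h0] at h2
    simp at h2

theorem self_mem_cell {P : Fin n → Pt} {x : Pt} (hx : x ∈ offLines P) : x ∈ cell P x := by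
  intro i j hij
  exact mul_self_pos.mpr (hx.2 i j hij)

theorem convex_cell (P : Fin n → Pt) (x : Pt) : Convex ℝ (cell P x) := by
  intro y hy z hz a b ha hb hab i j hij
  rw [orient_comb _ _ _ _ _ _ hab]
  have h1 := hy i j hij
  have h2 := hz i j hij
  have : 0 < a * (orient (P i) (P j) x * orient (P i) (P j) y)
      + b * (orient (P i) (P j) x * orient (P i) (P j) z) := by
    rcases ha.lt_or_eq with h | h
    · have := mul_pos h h1
      have := mul_nonneg hb h2.le
      linarith
    · have hb1 : b = 1 := by linarith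
      rw [← h, hb1]; linarith
  linarith

/-- A preconnected set avoiding the drawing and containing a point of `offLines` is contained in
the cell of that point. -/
theorem preconnected_sub_cell (hn : 3 ≤ n) {P : Fin n → Pt} (hP : Ccw P) {x : Pt}
    (hx : x ∈ inside P) {C : Set Pt} (hC : IsPreconnected C) (hCd : C ⊆ (drawing P)ᶜ)
    (hxC : x ∈ C) : C ⊆ cell P x := by
  -- first: `C ⊆ inside P`
  have hin : C ⊆ inside P := by
    by_contra hnot
    obtain ⟨y, hyC, hy⟩ := Set.not_subset.mp hnot
    have hopen : IsOpen (closedHull P)ᶜ := (isClosed_closedHull P).isOpen_compl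
    have hcov : C ⊆ inside P ∪ (closedHull P)ᶜ := by
      intro z hz
      rcases outside_or_inside hn hP (hCd hz) with h | ⟨i, j, hij, h⟩
      · exact Or.inl h
      · exact Or.inr fun hz' => absurd (hz' i j hij) (not_le.mpr h)
    have hy' : y ∈ (closedHull P)ᶜ := (hcov hyC).resolve_left hy
    obtain ⟨z, -, hz1, hz2⟩ := hC _ _ (isOpen_inside P) hopen hcov ⟨x, hxC, hx⟩ ⟨y, hyC, hy'⟩
    exact hz2 (inside_sub_closedHull P hz1)
  intro y hyC i j hij
  have hoff : ∀ z ∈ C, orient (P i) (P j) z ≠ 0 := fun z hz =>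
    ((inside_notMem_drawing hn hP (hin hz)).mp (hCd hz)).2 i j hij
  by_contra hneg
  have hxo := hoff x hxC
  have hyo := hoff y hyC
  have hcov : C ⊆ {z | orient (P i) (P j) z < 0} ∪ {z | 0 < orient (P i) (P j) z} := by
    intro z hz
    rcases lt_or_gt_of_ne (hoff z hz) with h | h
    · exact Or.inl h
    · exact Or.inr h
  have ho1 : IsOpen {z | orient (P i) (P j) z < 0} :=
    isOpen_lt (continuous_orient _ _) continuous_const
  have ho2 : IsOpen {z | 0 < orient (P i) (P j) z} :=
    isOpen_lt continuous_const (continuous_orient _ _)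
  rcases lt_or_gt_of_ne hxo with h1 | h1 <;> rcases lt_or_gt_of_ne hyo with h2 | h2
  · exact hneg (mul_pos_of_neg_of_neg h1 h2)
  · obtain ⟨z, -, hz1, hz2⟩ := hC _ _ ho1 ho2 hcov ⟨x, hxC, h1⟩ ⟨y, hyC, h2⟩
    exact absurd (show orient (P i) (P j) z < 0 from hz1)
      (not_lt.mpr (le_of_lt (show 0 < orient (P i) (P j) z from hz2)))
  · obtain ⟨z, -, hz1, hz2⟩ := hC _ _ ho1 ho2 hcov ⟨y, hyC, h2⟩ ⟨x, hxC, h1⟩
    exact absurd (show orient (P i) (P j) z < 0 from hz1)
      (not_lt.mpr (le_of_lt (show 0 < orient (P i) (P j) z from hz2)))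
  · exact hneg (mul_pos h1 h2)

theorem component_eq_cell (hn : 3 ≤ n) {P : Fin n → Pt} (hP : Ccw P) {x : Pt}
    (hx : x ∈ offLines P) : connectedComponentIn (drawing P)ᶜ x = cell P x := by
  have hxd : x ∈ (drawing P)ᶜ := (inside_notMem_drawing hn hP hx.1).mpr hx
  apply Set.Subset.antisymm
  · exact preconnected_sub_cell hn hP hx.1 isPreconnected_connectedComponentIn
      (connectedComponentIn_subset _ _) (mem_connectedComponentIn hxd)
  · refine (convex_cell P x).isPreconnected.subset_connectedComponentIn (self_mem_cell hx) ?_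
    intro y hy
    have := cell_sub_offLines hx hy
    exact (inside_notMem_drawing hn hP this.1).mpr this

theorem not_isBounded_of_ray {S : Set Pt} {x v : Pt} (hv : v ≠ 0)
    (h : ∀ s : ℝ, 0 ≤ s → x + s • v ∈ S) : ¬ Bornology.IsBounded S := by
  intro hb
  obtain ⟨C, hC⟩ := isBounded_iff_forall_norm_le.mp hb
  have hvn : 0 < ‖v‖ := norm_pos_iff.mpr hv
  have hC0 : 0 ≤ C := le_trans (norm_nonneg _) (hC _ (h 0 le_rfl))
  have h1 := hC _ (h ((C + ‖x‖ + 1) / ‖v‖) (by positivity))
  have h2 : ‖((C + ‖x‖ + 1) / ‖v‖) • v‖ = C + ‖x‖ + 1 := by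
    rw [norm_smul, Real.norm_of_nonneg (by positivity)]
    field_simp
  have h3 : ‖((C + ‖x‖ + 1) / ‖v‖) • v‖ ≤ ‖x + ((C + ‖x‖ + 1) / ‖v‖) • v‖ + ‖x‖ := by
    have := norm_sub_le (x + ((C + ‖x‖ + 1) / ‖v‖) • v) x
    simpa using this
  linarith

theorem component_unbounded (hn : 3 ≤ n) {P : Fin n → Pt} (hP : Ccw P) {x : Pt} {i j : Fin n}
    (hij : IsSide P i j) (hx : orient (P i) (P j) x < 0) :
    ¬ Bornology.IsBounded (connectedComponentIn (drawing P)ᶜ x) := by
  set v : Pt := ((P j - P i).2, -(P j - P i).1) with hvdef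
  have hd : P j - P i ≠ 0 := sub_ne_zero.mpr (ccw_ne hn hP hij.1).symm
  have hc : cross (P j - P i) v < 0 := by
    have h0 : 0 < (P j - P i).1 ^ 2 + (P j - P i).2 ^ 2 := by
      rcases eq_or_ne (P j - P i).1 0 with h1 | h1
      · have h2 : (P j - P i).2 ≠ 0 := by
          intro h2; exact hd (Prod.ext h1 h2)
        positivity
      · positivity
    simp only [cross, hvdef]
    nlinarith
  have hv : v ≠ 0 := by
    intro h; rw [h] at hc; simp [cross] at hc
  set H : Set Pt := {z | orient (P i) (P j) z < 0} with hH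
  have hHc : Convex ℝ H := by
    intro y hy z hz a b ha hb hab
    simp only [hH, Set.mem_ofPred_eq] at hy hz ⊢
    rw [orient_comb _ _ _ _ _ _ hab]
    rcases ha.lt_or_eq with h | h
    · have := mul_neg_of_pos_of_neg h hy
      have := mul_nonpos_of_nonneg_of_nonpos hb hz.le
      linarith
    · have hb1 : b = 1 := by linarith
      rw [← h, hb1]; linarith
  have hHd : H ⊆ (drawing P)ᶜ := by
    intro z hz hzd
    have := drawing_sub_closedHull P hzd i j hij
    simp only [hH, Set.mem_ofPred_eq] at hz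
    linarith
  have hsub : H ⊆ connectedComponentIn (drawing P)ᶜ x :=
    hHc.isPreconnected.subset_connectedComponentIn hx hHd
  refine not_isBounded_of_ray hv (x := x) fun s hs => hsub ?_
  simp only [hH, Set.mem_ofPred_eq]
  rw [orient_add_smul]
  have := mul_nonpos_of_nonneg_of_nonpos hs hc.le
  linarith

/-- (T) The faces are exactly the cells of the line arrangement inside the polygon. -/
theorem isFace_iff (hn : 3 ≤ n) {P : Fin n → Pt} (hP : Ccw P) (F : Set Pt) :
    IsFace P F ↔ ∃ x ∈ offLines P, F = cell P x := by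
  constructor
  · rintro ⟨x, hx, rfl, hb⟩
    rcases outside_or_inside hn hP hx with h | ⟨i, j, hij, h⟩
    · have hoff := (inside_notMem_drawing hn hP h).mp hx
      exact ⟨x, hoff, component_eq_cell hn hP hoff⟩
    · exact absurd hb (component_unbounded hn hP hij h)
  · rintro ⟨x, hx, rfl⟩
    refine ⟨x, (inside_notMem_drawing hn hP hx.1).mpr hx, (component_eq_cell hn hP hx).symm, ?_⟩
    refine (isBounded_closedHull hn hP).subset fun y hy => ?_
    exact inside_sub_closedHull P (cell_sub_offLines hx hy).1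

end Pool.H47.Tri
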