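import Pool.Agent.H47.Tri.Quad
import Pool.Agent.H41.Tri.B1
import Pool.Agent.H41.Tri.B2
import Pool.Agent.H41.Tri.B3

/-!
# Assembly of the lower bound
-/

namespace Pool.H47.Tri

variable {n : ℕ}

open Classical in
/-- Number of triangular cells among the representatives. -/
noncomputable def triCount (P : Fin n → Pt) (R : Finset Pt) : ℕ :=
  (R.filter (fun x => IsOpenTriangle (cell P x))).card

theorem numTri_eq (hn : 3 ≤ n) {P : Fin n → Pt} (hP : Ccw P) {R : Finset Pt} (hR : IsReps P R) :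
    numTri P = (triCount P R : ℕ∞) := by
  classical
  have h1 : triFaces P = (cell P) '' (R.filter (fun x => IsOpenTriangle (cell P x)) : Finset Pt) := by
    ext F
    constructor
    · rintro ⟨hF, hT⟩
      obtain ⟨x, hx, rfl⟩ := (isFace_iff hn hP F).mp hF
      obtain ⟨y, hy, hxy⟩ := hR.ex x hx
      have he := cell_eq_of_mem hx hxy
      refine ⟨y, ?_, he⟩
      rw [Finset.mem_coe, Finset.mem_filter]
      exact ⟨hy, by rw [he]; exact hT⟩
    · rintro ⟨x, hx, rfl⟩
      rw [Finset.mem_coe, Finset.mem_filter] at hx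
      exact ⟨(isFace_iff hn hP _).mpr ⟨x, hR.off x hx.1, rfl⟩, hx.2⟩
  have hinj : Set.InjOn (cell P)
      ((R.filter (fun x => IsOpenTriangle (cell P x)) : Finset Pt) : Set Pt) := by
    intro x hx y hy hxy
    rw [Finset.mem_coe, Finset.mem_filter] at hx hy
    refine hR.uniq x hx.1 y hy.1 ?_
    rw [hxy]
    exact self_mem_cell (hR.off y hy.1)
  unfold numTri triCount
  rw [h1, hinj.encard_image, Set.encard_coe_eq_coe_finsetCard]

theorem four_le (hn : 3 ≤ n) {P : Fin n → Pt} (hP : Ccw P) {R : Finset Pt} (hR : IsReps P R) :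
    4 * R.card ≤ ∑ x ∈ R, (corners P x).ncard + triCount P R := by
  classical
  have h : ∀ x ∈ R, 4 ≤ (corners P x).ncard + (if IsOpenTriangle (cell P x) then 1 else 0) := by
    intro x hx
    obtain ⟨h3, h3'⟩ := three_corners hn hP (hR.off x hx)
    by_cases he : (corners P x).ncard = 3
    · rw [if_pos (h3' he).1]; omega
    · omega
  have hs := Finset.sum_le_sum h
  rw [Finset.sum_add_distrib, Finset.sum_const, ← Finset.card_filter] at hs
  simp only [smul_eq_mul] at hs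
  unfold triCount
  linarith

theorem ten_le (hn : 3 ≤ n) {P : Fin n → Pt} (hP : Ccw P) {R : Finset Pt} (hR : IsReps P R) :
    10 * R.card ≤ 2 * ∑ x ∈ R, (corners P x).ncard
      + ∑ x ∈ R, {e : Pt × Pt | Flag P x e.1 e.2}.ncard + triCount P R := by
  classical
  have h : ∀ x ∈ R, 10 ≤ 2 * (corners P x).ncard + {e : Pt × Pt | Flag P x e.1 e.2}.ncard
      + (if IsOpenTriangle (cell P x) then 1 else 0) := by
    intro x hx
    obtain ⟨h3, h3'⟩ := three_corners hn hP (hR.off x hx)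
    by_cases he : (corners P x).ncard = 3
    · obtain ⟨h4, h5⟩ := h3' he
      rw [if_pos h4]; omega
    · by_cases he4 : (corners P x).ncard = 4
      · have := four_corners hn hP (hR.off x hx) he4
        omega
      · omega
  have hs := Finset.sum_le_sum h
  rw [Finset.sum_add_distrib, Finset.sum_add_distrib, Finset.sum_const, ← Finset.card_filter,
    ← Finset.mul_sum] at hs
  simp only [smul_eq_mul] at hs
  unfold triCount
  linarith

theorem two_le_lns {P : Fin n → Pt} {p : Pt} (hp : p ∈ crossings P) : 2 ≤ (lns P p).card := by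
  classical
  obtain ⟨-, i, j, k, l, hij, hkl, hne, h1, h2⟩ := hp
  have hsub : ({(i, j), (k, l)} : Finset (Fin n × Fin n)) ⊆ lns P p := by
    intro e he
    rw [Finset.mem_insert, Finset.mem_singleton] at he
    unfold lns
    rw [Finset.mem_filter]
    rcases he with rfl | rfl
    · exact ⟨Finset.mem_univ _, hij, h1⟩
    · exact ⟨Finset.mem_univ _, hkl, h2⟩
  calc 2 = ({(i, j), (k, l)} : Finset (Fin n × Fin n)).card := (Finset.card_pair hne).symm
    _ ≤ _ := Finset.card_le_card hsub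

theorem lns_card_generic (hn : 3 ≤ n) {P : Fin n → Pt} (hP : Ccw P) (hg : IsGeneric P) {p : Pt}
    (hp : p ∈ crossings P) : (lns P p).card = 2 := by
  classical
  refine le_antisymm ?_ (two_le_lns hp)
  by_contra hlt
  push Not at hlt
  obtain ⟨a, ha', b, hb', c, hc', hab, hac, hbc⟩ := Finset.two_lt_card.mp hlt
  have ha := Finset.mem_filter.mp ha'
  have hb := Finset.mem_filter.mp hb'
  have hc := Finset.mem_filter.mp hc'
  have hseg : ∀ e : Fin n × Fin n, e.1 < e.2 ∧ orient (P e.1) (P e.2) p = 0 →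
      p ∈ segment ℝ (P e.1) (P e.2) := by
    rintro e ⟨h1, h2⟩
    obtain ⟨t, ht0, ht1, rfl⟩ := mem_openSegment_of_inside hn hP h1.ne hp.1 h2
    exact param_mem_segment ht0.le ht1.le
  have hnot : p ∉ Set.range P := by
    rintro ⟨i, rfl⟩
    exact vertex_notMem_inside hn hP i hp.1
  rcases hg p hnot a.1 a.2 b.1 b.2 c.1 c.2 ha.2.1 hb.2.1 hc.2.1 (hseg a ha.2) (hseg b hb.2)
    (hseg c hc.2) with h | h | h
  · exact hab h
  · exact hac h
  · exact hbc h

theorem arith_core (n F N A T : ℕ) (hn : 3 ≤ n) {ι : Type*} (V : Finset ι) (k : ι → ℕ)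
    (hk : ∀ p ∈ V, 2 ≤ k p)
    (h1 : (n - 1).choose 2 + ∑ p ∈ V, (k p - 1) ≤ F)
    (h2 : N ≤ n * (n - 2) + ∑ p ∈ V, 2 * k p)
    (h3 : A ≤ n.choose 2 + n * (n - 3) + ∑ p ∈ V, (k p + if k p = 2 then 0 else 2 * k p))
    (h4 : 4 * F ≤ N + T) (h5 : 10 * F ≤ 2 * N + A + T) :
    (n - 2) ^ 2 + 2 * ∑ p ∈ V, (k p - 2) ≤ T ∧
      (n - 2) ^ 2 + (n - 3).choose 2 ≤ T + ∑ p ∈ V, (k p - 2) := by
  -- pointwise relations between the sums
  have e1 : 4 * ∑ p ∈ V, (k p - 1) = 2 * ∑ p ∈ V, (k p - 2) + ∑ p ∈ V, 2 * k p := by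
    rw [Finset.mul_sum, Finset.mul_sum, ← Finset.sum_add_distrib]
    exact Finset.sum_congr rfl fun p hp => by have := hk p hp; omega
  have e2 : 2 * ∑ p ∈ V, 2 * k p + ∑ p ∈ V, (k p + if k p = 2 then 0 else 2 * k p) ≤
      10 * ∑ p ∈ V, (k p - 1) + ∑ p ∈ V, (k p - 2) := by
    rw [Finset.mul_sum, Finset.mul_sum, ← Finset.sum_add_distrib, ← Finset.sum_add_distrib]
    refine Finset.sum_le_sum fun p hp => ?_
    have := hk p hp
    split_ifs with h <;> omega
  obtain ⟨m, rfl⟩ := Nat.exists_eq_add_of_le hn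
  have c1 : (3 + m - 1).choose 2 = (m + 2) * (m + 1) / 2 := by
    rw [show 3 + m - 1 = m + 2 by omega, Nat.choose_two_right]; rfl
  have c1' : 2 * (3 + m - 1).choose 2 = (m + 2) * (m + 1) := by
    rw [c1]; exact Nat.mul_div_cancel' (Nat.even_mul_pred_self (m + 2)).two_dvd
  have c2' : 2 * (3 + m).choose 2 = (m + 3) * (m + 2) := by
    rw [Nat.choose_two_right, show 3 + m = m + 3 by omega]
    exact Nat.mul_div_cancel' (Nat.even_mul_pred_self (m + 3)).two_dvd
  have c3' : 2 * (3 + m - 3).choose 2 = m * (m - 1) := by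
    rw [Nat.choose_two_right, show 3 + m - 3 = m by omega]
    exact Nat.mul_div_cancel' (Nat.even_mul_pred_self m).two_dvd
  have c3'' : m * (m - 1) + m = m * m := by
    rcases m with _ | m
    · rfl
    · simp; ring
  have s1 : 3 + m - 2 = m + 1 := by omega
  have s2 : 3 + m - 3 = m := by omega
  rw [s1] at h2 ⊢
  rw [s2] at h3 c3' ⊢
  constructor
  · nlinarith
  · nlinarith

/-- The lower bound for ccw labelled polygons. -/
theorem lower_ccw
    (hn : 3 ≤ n) {P : Fin n → Pt} (hP : Ccw P) :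
    ∃ T K : ℕ, numTri P = (T : ℕ∞) ∧ (n - 2) ^ 2 + 2 * K ≤ T ∧
      (n - 2) ^ 2 + (n - 3).choose 2 ≤ T + K ∧ (IsGeneric P → K = 0) := by
  obtain ⟨R, hR⟩ := exists_reps P
  obtain ⟨Vc, hV⟩ := exists_cross hn hP
  have h1 := B1.cells_ge hn hP hR hV
  have h2 := B2.corners_le hn hP hR hV
  have h3 := B3.flags_le hn hP hR hV
  have h4 := four_le hn hP hR
  have h5 := ten_le hn hP hR
  obtain ⟨r1, r2⟩ := arith_core n R.card _ _ (triCount P R) hn Vc (fun p => (lns P p).card)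
    (fun p hp => two_le_lns ((hV p).mp hp)) h1 h2 h3 h4 h5
  refine ⟨triCount P R, ∑ p ∈ Vc, ((lns P p).card - 2), numTri_eq hn hP hR, r1, r2, ?_⟩
  intro hg
  refine Finset.sum_eq_zero fun p hp => ?_
  have := lns_card_generic hn hP hg ((hV p).mp hp)
  omega

theorem drawing_comp (P : Fin n → Pt) (σ : Equiv.Perm (Fin n)) : drawing (P ∘ σ) = drawing P := by
  unfold drawing
  ext x
  simp only [Set.mem_iUnion, Function.comp_apply]
  constructor
  · rintro ⟨i, j, h⟩
    exact ⟨σ i, σ j, h⟩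
  · rintro ⟨i, j, h⟩
    exact ⟨σ.symm i, σ.symm j, by simpa using h⟩

theorem numTri_comp (P : Fin n → Pt) (σ : Equiv.Perm (Fin n)) : numTri (P ∘ σ) = numTri P := by
  unfold numTri triFaces IsFace
  rw [drawing_comp]

theorem generic_comp {P : Fin n → Pt} (σ : Equiv.Perm (Fin n)) (hg : IsGeneric P) :
    IsGeneric (P ∘ σ) := by
  -- sorted version of an edge
  have key : ∀ i j : Fin n, i < j → ∃ a b : Fin n, a < b ∧
      segment ℝ ((P ∘ σ) i) ((P ∘ σ) j) = segment ℝ (P a) (P b) ∧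
      ((a = σ i ∧ b = σ j) ∨ (a = σ j ∧ b = σ i)) := by
    intro i j hij
    have hne : σ i ≠ σ j := fun h => hij.ne (σ.injective h)
    rcases lt_or_gt_of_ne hne with h | h
    · exact ⟨σ i, σ j, h, rfl, Or.inl ⟨rfl, rfl⟩⟩
    · exact ⟨σ j, σ i, h, segment_symm _ _ _, Or.inr ⟨rfl, rfl⟩⟩
  have eqv : ∀ i j k l a b c d : Fin n, i < j → k < l →
      ((a = σ i ∧ b = σ j) ∨ (a = σ j ∧ b = σ i)) →
      ((c = σ k ∧ d = σ l) ∨ (c = σ l ∧ d = σ k)) → (a, b) = (c, d) → (i, j) = (k, l) := by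
    intro i j k l a b c d hij hkl h1 h2 he
    obtain ⟨e1, e2⟩ := Prod.ext_iff.mp he
    simp only at e1 e2
    rcases h1 with ⟨h1, h1'⟩ | ⟨h1, h1'⟩ <;> rcases h2 with ⟨h2, h2'⟩ | ⟨h2, h2'⟩
    · have x1 := σ.injective (h1.symm.trans (e1.trans h2))
      have x2 := σ.injective (h1'.symm.trans (e2.trans h2'))
      rw [x1, x2]
    · have x1 := σ.injective (h1.symm.trans (e1.trans h2))
      have x2 := σ.injective (h1'.symm.trans (e2.trans h2'))
      rw [x1, x2] at hij
      exact absurd hij (not_lt.mpr hkl.le)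
    · have x1 := σ.injective (h1.symm.trans (e1.trans h2))
      have x2 := σ.injective (h1'.symm.trans (e2.trans h2'))
      rw [x1, x2] at hij
      exact absurd hij (not_lt.mpr hkl.le)
    · have x1 := σ.injective (h1.symm.trans (e1.trans h2))
      have x2 := σ.injective (h1'.symm.trans (e2.trans h2'))
      rw [x1, x2]
  intro x hx i j k l r s hij hkl hrs h1 h2 h3
  have hx' : x ∉ Set.range P := by
    rintro ⟨i, rfl⟩
    exact hx ⟨σ.symm i, by simp⟩
  obtain ⟨a, b, hab, e1, o1⟩ := key i j hij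
  obtain ⟨c, d, hcd, e2, o2⟩ := key k l hkl
  obtain ⟨u, v, huv, e3, o3⟩ := key r s hrs
  rw [e1] at h1; rw [e2] at h2; rw [e3] at h3
  rcases hg x hx' a b c d u v hab hcd huv h1 h2 h3 with h | h | h
  · exact Or.inl (eqv i j k l a b c d hij hkl o1 o2 h)
  · exact Or.inr (Or.inl (eqv i j r s a b u v hij hrs o1 o3 h))
  · exact Or.inr (Or.inr (eqv k l r s c d u v hkl hrs o2 o3 h))

/-- Lower bounds for all convex drawings. -/
theorem lower_all (hn : 3 ≤ n) {P : Fin n → Pt} (hP : IsConvexDrawing P) :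
    ∃ T K : ℕ, numTri P = (T : ℕ∞) ∧ (n - 2) ^ 2 + 2 * K ≤ T ∧
      (n - 2) ^ 2 + (n - 3).choose 2 ≤ T + K ∧ (IsGeneric P → K = 0) := by
  obtain ⟨σ, hσ⟩ := M.exists_ccw hP
  obtain ⟨T, K, h1, h2, h3, h4⟩ := lower_ccw hn hσ
  exact ⟨T, K, by rw [← numTri_comp P σ]; exact h1, h2, h3, fun hg => h4 (generic_comp σ hg)⟩

theorem lower_generic (hn : 3 ≤ n) {P : Fin n → Pt} (hP : IsConvexDrawing P)
    (hg : IsGeneric P) : (((n - 2) ^ 2 + (n - 3).choose 2 : ℕ) : ℕ∞) ≤ numTri P := by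
  obtain ⟨T, K, h1, h2, h3, h4⟩ := lower_all hn hP
  rw [h1]
  have := h4 hg
  subst this
  exact_mod_cast h3

theorem lower_general (hn : 3 ≤ n) {P : Fin n → Pt} (hP : IsConvexDrawing P) :
    ((3 * (n - 2) ^ 2 + 2 * (n - 3).choose 2 : ℕ) : ℕ∞) ≤ 3 * numTri P := by
  obtain ⟨T, K, h1, h2, h3, h4⟩ := lower_all hn hP
  rw [h1]
  have : 3 * (n - 2) ^ 2 + 2 * (n - 3).choose 2 ≤ 3 * T := by omega
  exact_mod_cast this

end Pool.H47.Tri
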