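import Pool.Agent.H47.Tri.Skel

/-!
Module statements (all `sorry`, never imported by a result).
-/

namespace Pool.H47.Tri.Plan
open Pool.H47.Tri

variable {n : ℕ}

/-- (T) faces are cells. -/
theorem isFace_iff (hn : 3 ≤ n) {P : Fin n → Pt} (hP : Ccw P) (F : Set Pt) :
    IsFace P F ↔ ∃ x ∈ offLines P, F = cell P x := sorry

/-- (M) every convex drawing can be relabelled counterclockwise. -/
theorem exists_ccw {P : Fin n → Pt} (hP : IsConvexDrawing P) :
    ∃ σ : Equiv.Perm (Fin n), Ccw (P ∘ σ) := sorry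

/-- (R) representatives and the finite set of crossings exist. -/
theorem exists_reps (P : Fin n → Pt) : ∃ R : Finset Pt, IsReps P R := sorry
theorem exists_cross {P : Fin n → Pt} (hP : Ccw P) : ∃ Vc : Finset Pt, IsCross P Vc := sorry

/-- (G1) polygon lemma. -/
theorem ccell_eq (hn : 3 ≤ n) {P : Fin n → Pt} (hP : Ccw P) {x : Pt} (hx : x ∈ offLines P) :
    (corners P x).Finite ∧ ccell P x = convexHull ℝ (corners P x) ∧ cell P x = interior (ccell P x)
      ∧ (∀ p ∈ corners P x, p ∉ convexHull ℝ (corners P x \ {p})) := sorry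

/-- (G2) at least three corners, and for exactly three the cell is an open triangle with three
converging sides. -/
theorem three_corners (hn : 3 ≤ n) {P : Fin n → Pt} (hP : Ccw P) {x : Pt} (hx : x ∈ offLines P) :
    3 ≤ (corners P x).ncard ∧ ((corners P x).ncard = 3 →
      IsOpenTriangle (cell P x) ∧ 3 ≤ {e : Pt × Pt | Flag P x e.1 e.2}.ncard) := sorry

/-- (G3) a cell with four corners has at least two converging sides. -/
theorem four_corners (hn : 3 ≤ n) {P : Fin n → Pt} (hP : Ccw P) {x : Pt} (hx : x ∈ offLines P)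
    (h4 : (corners P x).ncard = 4) : 2 ≤ {e : Pt × Pt | Flag P x e.1 e.2}.ncard := sorry

/-- (B1) number of cells. -/
theorem cells_ge (hn : 3 ≤ n) {P : Fin n → Pt} (hP : Ccw P) {R Vc : Finset Pt} (hR : IsReps P R)
    (hV : IsCross P Vc) :
    (n - 1).choose 2 + ∑ p ∈ Vc, ((lns P p).card - 1) ≤ R.card := sorry

/-- (B2) number of corners. -/
theorem corners_le (hn : 3 ≤ n) {P : Fin n → Pt} (hP : Ccw P) {R Vc : Finset Pt} (hR : IsReps P R)
    (hV : IsCross P Vc) :
    ∑ x ∈ R, (corners P x).ncard ≤ n * (n - 2) + ∑ p ∈ Vc, 2 * (lns P p).card := sorry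

/-- (B3) number of converging sides. -/
theorem flags_le (hn : 3 ≤ n) {P : Fin n → Pt} (hP : Ccw P) {R Vc : Finset Pt} (hR : IsReps P R)
    (hV : IsCross P Vc) :
    ∑ x ∈ R, {e : Pt × Pt | Flag P x e.1 e.2}.ncard ≤ n.choose 2 + n * (n - 3) +
      ∑ p ∈ Vc, ((lns P p).card + if (lns P p).card = 2 then 0 else 2 * (lns P p).card) := sorry

end Pool.H47.Tri.Plan
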