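import Pool.Agent.H47.Tri.Reps

/-!
# (G1) The closed cells are convex polygons spanned by their corners
-/

namespace Pool.H47.Tri

open Filter Topology

variable {n : ℕ}

/-- An interior point can be moved a little in the direction `-v`. -/
theorem escape {S : Set Pt} {y : Pt} (hy : y ∈ interior S) (v : Pt) :
    ∃ s : ℝ, s < 0 ∧ y + s • v ∈ S := by
  have hc : ContinuousAt (fun s : ℝ => y + s • v) 0 := by fun_prop
  have h0 : (fun s : ℝ => y + s • v) 0 = y := by simp
  have hmem : S ∈ 𝓝 ((fun s : ℝ => y + s • v) 0) := by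
    rw [h0]; exact mem_interior_iff_mem_nhds.mp hy
  have hev : ∀ᶠ s in 𝓝 (0 : ℝ), y + s • v ∈ S := hc hmem
  obtain ⟨s, hs1, hs2⟩ := ((hev.filter_mono nhdsWithin_le_nhds).and
    (self_mem_nhdsWithin (s := Set.Iio (0 : ℝ)))).exists
  exact ⟨s, hs2, hs1⟩

/-- For `d ≠ 0` there is `v` with `cross d v > 0`. -/
theorem exists_cross_pos {d : Pt} (hd : d ≠ 0) : ∃ v : Pt, 0 < cross d v := by
  refine ⟨(-d.2, d.1), ?_⟩
  simp only [cross]
  rcases eq_or_ne d.1 0 with h1 | h1
  · have h2 : d.2 ≠ 0 := by
      intro h2; exact hd (Prod.ext h1 h2)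
    have : 0 < d.2 ^ 2 := by positivity
    nlinarith
  · have : 0 < d.1 ^ 2 := by positivity
    nlinarith [sq_nonneg d.2]

theorem cross_neg_right (u v : Pt) : cross u (-v) = - cross u v := by
  simp [cross]; ring

theorem cross_smul_right (u v : Pt) (s : ℝ) : cross u (s • v) = s * cross u v := by
  simp [cross]; ring

theorem isOpen_cell (P : Fin n → Pt) (x : Pt) : IsOpen (cell P x) := by
  have : cell P x = ⋂ i, ⋂ j, {y | i ≠ j → 0 < orient (P i) (P j) x * orient (P i) (P j) y} := by
    ext y; simp [cell]
  rw [this]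
  refine isOpen_iInter_of_finite fun i => isOpen_iInter_of_finite fun j => ?_
  by_cases h : i = j
  · simp [h]
  · simpa [h] using isOpen_lt continuous_const
      (continuous_const.mul (continuous_orient (P i) (P j)))

theorem isClosed_ccell (P : Fin n → Pt) (x : Pt) : IsClosed (ccell P x) := by
  have : ccell P x = ⋂ i, ⋂ j, {y | 0 ≤ orient (P i) (P j) x * orient (P i) (P j) y} := by
    ext y; simp [ccell]
  rw [this]
  exact isClosed_iInter fun i => isClosed_iInter fun j =>
    isClosed_le continuous_const (continuous_const.mul (continuous_orient (P i) (P j)))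

theorem convex_ccell (P : Fin n → Pt) (x : Pt) : Convex ℝ (ccell P x) := by
  intro y hy z hz a b ha hb hab i j
  rw [orient_comb _ _ _ _ _ _ hab]
  have h1 := mul_nonneg ha (hy i j)
  have h2 := mul_nonneg hb (hz i j)
  linarith

theorem cell_sub_ccell {P : Fin n → Pt} {x : Pt} : cell P x ⊆ ccell P x := by
  intro y hy i j
  by_cases hij : i = j
  · subst hij; simp
  · exact (hy i j hij).le

theorem ccell_sub_closedHull {P : Fin n → Pt} {x : Pt} (hx : x ∈ offLines P) :
    ccell P x ⊆ closedHull P := by
  intro y hy i j hij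
  have h1 := mem_inside.mp hx.1 i j hij
  exact nonneg_of_mul_nonneg_right (hy i j) h1

theorem isCompact_ccell (hn : 3 ≤ n) {P : Fin n → Pt} (hP : Ccw P) {x : Pt}
    (hx : x ∈ offLines P) : IsCompact (ccell P x) :=
  Metric.isCompact_of_isClosed_isBounded (isClosed_ccell P x)
    ((isBounded_closedHull hn hP).subset (ccell_sub_closedHull hx))

theorem cell_eq_interior (hn : 3 ≤ n) {P : Fin n → Pt} (hP : Ccw P) {x : Pt}
    (hx : x ∈ offLines P) : cell P x = interior (ccell P x) := by
  apply Set.Subset.antisymm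
  · exact interior_maximal cell_sub_ccell (isOpen_cell P x)
  · intro y hy i j hij
    have h0 : 0 ≤ orient (P i) (P j) x * orient (P i) (P j) y := interior_subset hy i j
    rcases h0.lt_or_eq with h | h
    · exact h
    · exfalso
      have hxo := hx.2 i j hij
      have hy0 : orient (P i) (P j) y = 0 := by
        rcases mul_eq_zero.mp h.symm with h | h
        · exact absurd h hxo
        · exact h
      have hd : P j - P i ≠ 0 := sub_ne_zero.mpr (ccw_ne hn hP hij).symm
      obtain ⟨v, hv⟩ := exists_cross_pos hd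
      obtain ⟨s, hs, hmem⟩ := escape hy ((orient (P i) (P j) x) • v)
      have := hmem i j
      rw [orient_add_smul, hy0, cross_smul_right] at this
      have h1 : 0 < orient (P i) (P j) x * orient (P i) (P j) x := mul_self_pos.mpr hxo
      have h2 : 0 < (orient (P i) (P j) x * orient (P i) (P j) x) * cross (P j - P i) v :=
        mul_pos h1 hv
      nlinarith

/-- If `v ≠ 0` is parallel to all lines active at `y`, then `y` is not extreme. -/
theorem not_extreme_of_dir {P : Fin n → Pt} {x : Pt} {y v : Pt} (hy : y ∈ ccell P x)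
    (hv : v ≠ 0)
    (hact : ∀ i j : Fin n, i ≠ j → orient (P i) (P j) x * orient (P i) (P j) y = 0 →
      cross (P j - P i) v = 0) : y ∉ (ccell P x).extremePoints ℝ := by
  intro hext
  have hev : ∀ᶠ s in 𝓝 (0 : ℝ), ∀ i j : Fin n,
      0 ≤ orient (P i) (P j) x * orient (P i) (P j) (y + s • v) := by
    rw [eventually_all]; intro i
    rw [eventually_all]; intro j
    by_cases hij : i = j
    · subst hij; simp
    by_cases h0 : orient (P i) (P j) x * orient (P i) (P j) y = 0
    · refine Eventually.of_forall fun s => ?_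
      rw [orient_add_smul, hact i j hij h0, mul_zero, add_zero, h0]
    · have hpos : 0 < orient (P i) (P j) x * orient (P i) (P j) y :=
        lt_of_le_of_ne (hy i j) (Ne.symm h0)
      have hc : ContinuousAt (fun s : ℝ =>
          orient (P i) (P j) x * orient (P i) (P j) (y + s • v)) 0 := by
        have := (continuous_orient (P i) (P j)).comp
          (show Continuous (fun s : ℝ => y + s • v) by fun_prop)
        exact (continuous_const.mul this).continuousAt
      have : (fun s : ℝ => orient (P i) (P j) x * orient (P i) (P j) (y + s • v)) 0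
          = orient (P i) (P j) x * orient (P i) (P j) y := by simp
      have h2 : ∀ᶠ s in 𝓝 (0 : ℝ),
          0 < orient (P i) (P j) x * orient (P i) (P j) (y + s • v) := by
        apply hc.eventually
        rw [this]
        exact lt_mem_nhds hpos
      exact h2.mono fun s hs => hs.le
  have hev2 : ∀ᶠ s in 𝓝 (0 : ℝ), ∀ i j : Fin n,
      0 ≤ orient (P i) (P j) x * orient (P i) (P j) (y + (-s) • v) := by
    have hneg : Tendsto (fun s : ℝ => -s) (𝓝 0) (𝓝 0) := by
      have := (continuous_neg (G := ℝ)).tendsto 0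
      simpa using this
    exact hneg.eventually hev
  obtain ⟨s, ⟨hs1, hs2⟩, hs3⟩ := (((hev.and hev2).filter_mono nhdsWithin_le_nhds).and
    (self_mem_nhdsWithin (s := Set.Ioi (0 : ℝ)))).exists
  have hs : 0 < s := hs3
  have hmid : y ∈ openSegment ℝ (y + s • v) (y + (-s) • v) := by
    refine ⟨1 / 2, 1 / 2, by norm_num, by norm_num, by norm_num, ?_⟩
    ext
    · simp; ring
    · simp; ring
  have := hext.2 (x₁ := y + s • v) hs1 (x₂ := y + (-s) • v) hs2 hmid
  have h3 : s • v = 0 := by simpa using this
  rcases smul_eq_zero.mp h3 with h | h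
  · exact hs.ne' h
  · exact hv h

/-- Extreme points of the closed cell are vertices of the arrangement. -/
theorem extreme_mem_verts (hn : 3 ≤ n) {P : Fin n → Pt} (hP : Ccw P) {x : Pt}
    (hx : x ∈ offLines P) {y : Pt} (hy : y ∈ (ccell P x).extremePoints ℝ) : y ∈ verts P := by
  have hyc : y ∈ ccell P x := hy.1
  -- there are two different active lines
  have hzero : ∀ i j : Fin n, i ≠ j → orient (P i) (P j) x * orient (P i) (P j) y = 0 →
      orient (P i) (P j) y = 0 := by
    intro i j hij h
    rcases mul_eq_zero.mp h with h | h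
    · exact absurd h (hx.2 i j hij)
    · exact h
  have hone : ∃ i j : Fin n, i < j ∧ orient (P i) (P j) y = 0 := by
    by_contra hcon
    push Not at hcon
    refine not_extreme_of_dir hyc (v := (1, 0)) (by simp) ?_ hy
    intro i j hij h
    exfalso
    have h0 := hzero i j hij h
    rcases lt_or_gt_of_ne hij with h1 | h1
    · exact hcon i j h1 h0
    · apply hcon j i h1; rw [orient_swap, h0, neg_zero]
  obtain ⟨i, j, hij, hy0⟩ := hone
  have htwo : ∃ k l : Fin n, k < l ∧ (i, j) ≠ (k, l) ∧ orient (P k) (P l) y = 0 := by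
    by_contra hcon
    push Not at hcon
    have hd : P j - P i ≠ 0 := sub_ne_zero.mpr (ccw_ne hn hP hij.ne).symm
    refine not_extreme_of_dir hyc hd ?_ hy
    intro k l hkl h
    have h0 := hzero k l hkl h
    rcases lt_or_gt_of_ne hkl with h1 | h1
    · by_cases he : (i, j) = (k, l)
      · obtain ⟨rfl, rfl⟩ := Prod.ext_iff.mp he
        simp [cross]; ring
      · exact absurd h0 (hcon k l h1 he)
    · by_cases he : (i, j) = (l, k)
      · obtain ⟨h2, h3⟩ := Prod.ext_iff.mp he
        simp only at h2 h3
        subst h2; subst h3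
        simp [cross]; ring
      · exfalso; apply hcon l k h1 he; rw [orient_swap, h0, neg_zero]
  obtain ⟨k, l, hkl, hne, hy1⟩ := htwo
  by_cases hin : y ∈ inside P
  · exact Or.inr ⟨hin, i, j, k, l, hij, hkl, hne, hy0, hy1⟩
  · left
    have hch := ccell_sub_closedHull hx hyc
    rw [mem_inside] at hin
    push Not at hin
    obtain ⟨a, b, hab, hle⟩ := hin
    have hab0 : orient (P a) (P b) y = 0 := le_antisymm hle (hch a b hab)
    -- a line through `y` different from the side `a b`
    have hkey : ∀ k l : Fin n, k < l → ¬ ((k = a ∧ l = b) ∨ (k = b ∧ l = a)) →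
        orient (P k) (P l) y = 0 → y ∈ Set.range P := by
      intro k l hkl hnab hy1
      obtain ⟨t, ht0, ht1, hyt⟩ := mem_segment_of_closedHull hn hP hkl.ne hch hy1
      have hk := vertex_mem_closedHull P k a b hab
      have hl := vertex_mem_closedHull P l a b hab
      rw [hyt, orient_param] at hab0
      have e1 : (1 - t) * orient (P a) (P b) (P k) = 0 := by
        have h1 : 0 ≤ (1 - t) * orient (P a) (P b) (P k) := mul_nonneg (by linarith) hk
        have h2 : 0 ≤ t * orient (P a) (P b) (P l) := mul_nonneg ht0 hl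
        linarith
      have e2 : t * orient (P a) (P b) (P l) = 0 := by linarith
      rcases mul_eq_zero.mp e1 with h | h
      · have : t = 1 := by linarith
        exact ⟨l, by rw [hyt, this]; simp⟩
      rcases mul_eq_zero.mp e2 with h' | h'
      · exact ⟨k, by rw [hyt, h']; simp⟩
      · exfalso
        have hka : k = a ∨ k = b := by
          by_contra hcon; push Not at hcon
          exact (hab.2 k hcon.1 hcon.2).ne' h
        have hla : l = a ∨ l = b := by
          by_contra hcon; push Not at hcon
          exact (hab.2 l hcon.1 hcon.2).ne' h'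
        rcases hka with rfl | rfl <;> rcases hla with rfl | rfl
        · exact lt_irrefl _ hkl
        · exact hnab (Or.inl ⟨rfl, rfl⟩)
        · exact hnab (Or.inr ⟨rfl, rfl⟩)
        · exact lt_irrefl _ hkl
    by_cases h1 : (i = a ∧ j = b) ∨ (i = b ∧ j = a)
    · refine hkey k l hkl ?_ hy1
      intro h2
      apply hne
      rcases h1 with ⟨rfl, rfl⟩ | ⟨rfl, rfl⟩ <;> rcases h2 with ⟨rfl, rfl⟩ | ⟨rfl, rfl⟩
      · rfl
      · exact absurd hij (not_lt.mpr hkl.le)
      · exact absurd hij (not_lt.mpr hkl.le)
      · rfl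
    · exact hkey i j hij h1 hy0

theorem verts_finite (hn : 3 ≤ n) {P : Fin n → Pt} (hP : Ccw P) : (verts P).Finite :=
  (Set.finite_range P).union (crossings_finite hn hP)

theorem corners_finite (hn : 3 ≤ n) {P : Fin n → Pt} (hP : Ccw P) (x : Pt) :
    (corners P x).Finite :=
  (verts_finite hn hP).subset fun _ h => h.1

/-- Two different lines pass through every vertex of the arrangement. -/
theorem two_lines_of_vert (hn : 3 ≤ n) {P : Fin n → Pt} {p : Pt} (hp : p ∈ verts P) :
    ∃ i j k l : Fin n, i < j ∧ k < l ∧ (i, j) ≠ (k, l) ∧ orient (P i) (P j) p = 0 ∧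
      orient (P k) (P l) p = 0 := by
  rcases hp with ⟨i, rfl⟩ | hp
  · -- sorted pairs
    have hpair : ∀ j : Fin n, j ≠ i → ∃ a b : Fin n, a < b ∧ orient (P a) (P b) (P i) = 0 ∧
        ((a = i ∧ b = j) ∨ (a = j ∧ b = i)) := by
      intro j hj
      rcases lt_or_gt_of_ne hj with h | h
      · exact ⟨j, i, h, by simp, Or.inr ⟨rfl, rfl⟩⟩
      · exact ⟨i, j, h, by simp, Or.inl ⟨rfl, rfl⟩⟩
    obtain ⟨j, hj, -⟩ := exists_third hn i i
    obtain ⟨k, hk1, hk2⟩ := exists_third hn i j
    obtain ⟨a, b, hab, h0, hab'⟩ := hpair j hj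
    obtain ⟨c, d, hcd, h0', hcd'⟩ := hpair k hk1
    refine ⟨a, b, c, d, hab, hcd, ?_, h0, h0'⟩
    intro he
    obtain ⟨rfl, rfl⟩ := Prod.ext_iff.mp he
    rcases hab' with ⟨h1, h2⟩ | ⟨h1, h2⟩ <;> rcases hcd' with ⟨h3, h4⟩ | ⟨h3, h4⟩
    · exact hk2 (h4.symm.trans h2)
    · exact hk1 (h3.symm.trans h1)
    · exact hj (h1.symm.trans h3)
    · exact hk2 (h3.symm.trans h1)
  · exact hp.2

/-- Corners are extreme points. -/
theorem corner_extreme (hn : 3 ≤ n) {P : Fin n → Pt} (hP : Ccw P) {x : Pt}
    (hx : x ∈ offLines P) {p : Pt} (hp : p ∈ corners P x) : p ∈ (ccell P x).extremePoints ℝ := by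
  obtain ⟨i, j, k, l, hij, hkl, hne, h1, h2⟩ := two_lines_of_vert hn hp.1
  refine ⟨hp.2, ?_⟩
  intro y hy z hz hseg
  obtain ⟨a, b, ha, hb, hab, hpz⟩ := hseg
  have hact : ∀ i j : Fin n, i < j → orient (P i) (P j) p = 0 → orient (P i) (P j) y = 0 := by
    intro i j hij h0
    have e := orient_comb (P i) (P j) y z a b hab
    rw [hpz, h0] at e
    have hy' := hy i j
    have hz' := hz i j
    have hxo := hx.2 i j hij.ne
    have hs : a * (orient (P i) (P j) x * orient (P i) (P j) y)
        + b * (orient (P i) (P j) x * orient (P i) (P j) z) = 0 := by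
      have : a * (orient (P i) (P j) x * orient (P i) (P j) y)
        + b * (orient (P i) (P j) x * orient (P i) (P j) z) =
        orient (P i) (P j) x * (a * orient (P i) (P j) y + b * orient (P i) (P j) z) := by ring
      rw [this, ← e, mul_zero]
    have h3 : 0 ≤ a * (orient (P i) (P j) x * orient (P i) (P j) y) := mul_nonneg ha.le hy'
    have h4 : 0 ≤ b * (orient (P i) (P j) x * orient (P i) (P j) z) := mul_nonneg hb.le hz'
    have h5 : a * (orient (P i) (P j) x * orient (P i) (P j) y) = 0 := by linarith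
    rcases mul_eq_zero.mp h5 with h | h
    · exact absurd h ha.ne'
    rcases mul_eq_zero.mp h with h | h
    · exact absurd h hxo
    · exact h
  exact eq_of_two_lines hn hP hij hkl hne (hact i j hij h1) (hact k l hkl h2) h1 h2

/-- (G1) polygon lemma. -/
theorem ccell_eq (hn : 3 ≤ n) {P : Fin n → Pt} (hP : Ccw P) {x : Pt} (hx : x ∈ offLines P) :
    (corners P x).Finite ∧ ccell P x = convexHull ℝ (corners P x) ∧ cell P x = interior (ccell P x)
      ∧ (∀ p ∈ corners P x, p ∉ convexHull ℝ (corners P x \ {p})) := by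
  have hfin := corners_finite hn hP x
  have hsub : (ccell P x).extremePoints ℝ ⊆ corners P x := fun y hy =>
    ⟨extreme_mem_verts hn hP hx hy, hy.1⟩
  have hKM := closure_convexHull_extremePoints (isCompact_ccell hn hP hx) (convex_ccell P x)
  have hextfin : ((ccell P x).extremePoints ℝ).Finite := hfin.subset hsub
  rw [(hextfin.isCompact_convexHull (𝕜 := ℝ)).isClosed.closure_eq] at hKM
  refine ⟨hfin, ?_, cell_eq_interior hn hP hx, ?_⟩
  · apply Set.Subset.antisymm
    · rw [← hKM]; exact convexHull_mono hsub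
    · exact convexHull_min (fun p hp => hp.2) (convex_ccell P x)
  · intro p hp hmem
    have hext := corner_extreme hn hP hx hp
    rw [(convex_ccell P x).mem_extremePoints_iff_mem_diff_convexHull_diff] at hext
    exact hext.2 (convexHull_mono (Set.diff_subset_diff_left fun q hq => hq.2) hmem)

end Pool.H47.Tri
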