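import Pool.Agent.H47.Tri.Sides

/-!
# (G3) Cells with four corners
-/

namespace Pool.H47.Tri

variable {n : ℕ}

theorem lexPos_neg_of_not {u : Pt} (hu : u ≠ 0) (h : ¬ LexPos u) : LexPos (-u) := by
  simp only [LexPos, not_or, not_and, not_lt] at h ⊢
  rcases h.1.lt_or_eq with h1 | h1
  · left; simpa using h1
  · right
    refine ⟨by simp [h1], ?_⟩
    have h2 := h.2 h1
    rcases h2.lt_or_eq with h3 | h3
    · simpa using h3
    · exact absurd (Prod.ext h1 h3) hu

theorem lexPos_of_smul {u w : Pt} {a b : ℝ} (ha : 0 < a) (hb : 0 < b) (h : a • w = b • u)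
    (hu : LexPos u) : LexPos w := by
  have h1 := congrArg Prod.fst h
  have h2 := congrArg Prod.snd h
  simp only [Prod.smul_fst, Prod.smul_snd, smul_eq_mul] at h1 h2
  rcases hu with hu | ⟨hu1, hu2⟩
  · left
    have : 0 < a * w.1 := by rw [h1]; positivity
    exact (mul_pos_iff_of_pos_left ha).mp this
  · right
    constructor
    · have : a * w.1 = 0 := by rw [h1, hu1, mul_zero]
      exact (mul_eq_zero.mp this).resolve_left ha.ne'
    · have : 0 < a * w.2 := by rw [h2]; positivity
      exact (mul_pos_iff_of_pos_left ha).mp this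

/-- Of two opposite sides of a quadrilateral cell one is converging. -/
theorem opp_flag (hn : 3 ≤ n) {P : Fin n → Pt} (hP : Ccw P) {x : Pt} (hx : x ∈ offLines P)
    {a b c d : Pt} (hc : corners P x = {a, b, c, d}) (h1 : 0 < orient a b c)
    (h2 : 0 < orient a b d) (h3 : 0 < orient a c d) (h4 : 0 < orient b c d) :
    Flag P x a b ∨ Flag P x c d := by
  have ha : a ∈ corners P x := by rw [hc]; simp
  have hb : b ∈ corners P x := by rw [hc]; simp
  have hcc : c ∈ corners P x := by rw [hc]; simp
  have hd : d ∈ corners P x := by rw [hc]; simp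
  have hab : a ≠ b := by rintro rfl; simp at h1
  have hbc : b ≠ c := by rintro rfl; simp at h1
  have hcd : c ≠ d := by rintro rfl; simp at h3
  have hda : d ≠ a := by rintro rfl; simp at h3
  have h1' : 0 < orient b c a := by rw [← orient_cyc]; exact h1
  have h2' : 0 < orient d a b := by rw [orient_cyc]; exact h2
  have h3' : 0 < orient c d a := by rw [← orient_cyc]; exact h3
  have h3'' : 0 < orient d a c := by rw [orient_cyc]; exact h3
  have h4' : 0 < orient c d b := by rw [← orient_cyc]; exact h4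
  obtain ⟨lab, oab⟩ := side_lemma hn hP hx ha hb hab (by
    intro s hs; rw [hc] at hs; rcases hs with rfl | rfl | rfl | rfl
    · simp
    · simp
    · exact h1.le
    · exact h2.le)
  obtain ⟨lbc, -⟩ := side_lemma hn hP hx hb hcc hbc (by
    intro s hs; rw [hc] at hs; rcases hs with rfl | rfl | rfl | rfl
    · exact h1'.le
    · simp
    · simp
    · exact h4.le)
  obtain ⟨lcd, ocd⟩ := side_lemma hn hP hx hcc hd hcd (by
    intro s hs; rw [hc] at hs; rcases hs with rfl | rfl | rfl | rfl
    · exact h3'.le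
    · exact h4'.le
    · simp
    · simp)
  obtain ⟨lda, -⟩ := side_lemma hn hP hx hd ha hda (by
    intro s hs; rw [hc] at hs; rcases hs with rfl | rfl | rfl | rfl
    · simp
    · exact h2'.le
    · exact h3''.le
    · simp)
  have hneg : cross (b - c) (a - d) = - cross (d - a) (c - b) := by simp [cross]; ring
  by_cases hflag : 0 < cross (d - a) (c - b) ∨ (cross (d - a) (c - b) = 0 ∧ LexPos (d - a))
  · left
    exact ⟨ha, hb, hab, lab, oab, d, c, hd, hcc, lda.symm, lbc, h2, h1, hflag⟩
  · right
    refine ⟨hcc, hd, hcd, lcd, ocd, b, a, hb, ha, lbc.symm, lda, h4', h3', ?_⟩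
    rw [hneg]
    simp only [not_or, not_and, not_lt] at hflag
    obtain ⟨hf1, hf2⟩ := hflag
    rcases hf1.lt_or_eq with h | h
    · left; linarith
    · right
      refine ⟨by rw [h, neg_zero], ?_⟩
      have hnl := hf2 h
      have hne : d - a ≠ 0 := sub_ne_zero.mpr hda
      have hL := lexPos_neg_of_not hne hnl
      refine lexPos_of_smul (u := -(d - a)) (w := b - c) (a := orient a b d) (b := orient a b c)
        h2 h1 ?_ hL
      have hz : (d - a).1 * (c - b).2 - (d - a).2 * (c - b).1 = 0 := h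
      simp only [Prod.fst_sub, Prod.snd_sub] at hz
      ext
      · simp only [Prod.smul_fst, smul_eq_mul, Prod.fst_sub, Prod.fst_neg, orient]
        linear_combination (b.1 - a.1) * hz
      · simp only [Prod.smul_snd, smul_eq_mul, Prod.snd_sub, Prod.snd_neg, orient]
        linear_combination (b.2 - a.2) * hz

/-- (G3) a cell with four corners has at least two converging sides. -/
theorem four_corners (hn : 3 ≤ n) {P : Fin n → Pt} (hP : Ccw P) {x : Pt} (hx : x ∈ offLines P)
    (h4 : (corners P x).ncard = 4) : 2 ≤ {e : Pt × Pt | Flag P x e.1 e.2}.ncard := by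
  obtain ⟨hfin, hhull, hint, hind⟩ := ccell_eq hn hP hx
  have hcard : hfin.toFinset.card = 4 := by
    rw [← Set.ncard_eq_toFinset_card _ hfin]; exact h4
  let e := Finset.equivFinOfCardEq hcard
  let Q : Fin 4 → Pt := fun i => (e.symm i : Pt)
  have hQinj : Function.Injective Q := by
    intro i j hij
    exact e.symm.injective (Subtype.ext hij)
  have hQmem : ∀ i, Q i ∈ corners P x := fun i => hfin.mem_toFinset.mp (e.symm i).2
  have hQsurj : ∀ p ∈ corners P x, ∃ i, Q i = p := by
    intro p hp
    refine ⟨e ⟨p, by simpa using hp⟩, ?_⟩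
    simp [Q]
  have hci : ConvexIndependent ℝ Q := by
    intro s i hi
    by_contra his
    refine hind (Q i) (hQmem i) (convexHull_mono ?_ hi)
    rintro _ ⟨j, hj, rfl⟩
    refine ⟨hQmem j, ?_⟩
    intro hji
    have : j = i := hQinj hji
    exact his (this ▸ hj)
  obtain ⟨σ, hσ⟩ := M.exists_ccw (P := Q) hci
  have hc : corners P x = {Q (σ 0), Q (σ 1), Q (σ 2), Q (σ 3)} := by
    apply Set.Subset.antisymm
    · intro p hp
      obtain ⟨i, rfl⟩ := hQsurj p hp
      obtain ⟨j, rfl⟩ := σ.surjective i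
      fin_cases j <;> simp
    · rintro p (rfl | rfl | rfl | rfl) <;> exact hQmem _
  have h012 : 0 < orient (Q (σ 0)) (Q (σ 1)) (Q (σ 2)) := hσ 0 1 2 (by decide) (by decide)
  have h013 : 0 < orient (Q (σ 0)) (Q (σ 1)) (Q (σ 3)) := hσ 0 1 3 (by decide) (by decide)
  have h023 : 0 < orient (Q (σ 0)) (Q (σ 2)) (Q (σ 3)) := hσ 0 2 3 (by decide) (by decide)
  have h123 : 0 < orient (Q (σ 1)) (Q (σ 2)) (Q (σ 3)) := hσ 1 2 3 (by decide) (by decide)
  have hne : ∀ i j : Fin 4, i ≠ j → Q (σ i) ≠ Q (σ j) := fun i j hij h =>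
    hij (σ.injective (hQinj h))
  have hA := opp_flag hn hP hx hc h012 h013 h023 h123
  have hc' : corners P x = {Q (σ 1), Q (σ 2), Q (σ 3), Q (σ 0)} := by
    rw [hc]; ext s; simp only [Set.mem_insert_iff, Set.mem_singleton_iff]; tauto
  have hB := opp_flag hn hP hx hc' h123 (by rw [← orient_cyc]; exact h012)
    (by rw [← orient_cyc]; exact h013) (by rw [← orient_cyc]; exact h023)
  have key : ∀ u v : Pt × Pt, u ≠ v → Flag P x u.1 u.2 → Flag P x v.1 v.2 →
      2 ≤ {e : Pt × Pt | Flag P x e.1 e.2}.ncard := by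
    intro u v huv hu hv
    have hsub : ({u, v} : Set (Pt × Pt)) ⊆ {e : Pt × Pt | Flag P x e.1 e.2} := by
      rintro w (rfl | rfl)
      · exact hu
      · exact hv
    calc 2 = ({u, v} : Set (Pt × Pt)).ncard := (Set.ncard_pair huv).symm
      _ ≤ _ := Set.ncard_le_ncard hsub (flags_finite hn hP x)
  rcases hA with hA | hA <;> rcases hB with hB | hB
  · exact key (_, _) (_, _) (fun h => hne 0 1 (by decide) (Prod.ext_iff.mp h).1) hA hB
  · exact key (_, _) (_, _) (fun h => hne 0 3 (by decide) (Prod.ext_iff.mp h).1) hA hB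
  · exact key (_, _) (_, _) (fun h => hne 2 1 (by decide) (Prod.ext_iff.mp h).1) hA hB
  · exact key (_, _) (_, _) (fun h => hne 2 3 (by decide) (Prod.ext_iff.mp h).1) hA hB

end Pool.H47.Tri
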