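import Pool.Agent.H47.Tri.Faces

/-!
# Representatives of the cells, finiteness of the crossing set
-/

namespace Pool.H47.Tri

variable {n : ℕ}

/-- Sign vector of a point. -/
noncomputable def sv (P : Fin n → Pt) (x : Pt) : Fin n → Fin n → SignType :=
  fun i j => SignType.sign (orient (P i) (P j) x)

theorem sign_eq_of_mul_pos {a b : ℝ} (h : 0 < a * b) : SignType.sign a = SignType.sign b := by
  rcases pos_and_pos_or_neg_and_neg_of_mul_pos h with ⟨ha, hb⟩ | ⟨ha, hb⟩
  · rw [sign_pos ha, sign_pos hb]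
  · rw [sign_neg ha, sign_neg hb]

theorem mul_pos_of_sign_eq {a b : ℝ} (ha : a ≠ 0) (h : SignType.sign a = SignType.sign b) :
    0 < a * b := by
  rcases lt_or_gt_of_ne ha with h1 | h1
  · rw [sign_neg h1] at h
    have hb : b < 0 := sign_eq_neg_one_iff.mp h.symm
    exact mul_pos_of_neg_of_neg h1 hb
  · rw [sign_pos h1] at h
    have hb : 0 < b := sign_eq_one_iff.mp h.symm
    exact mul_pos h1 hb

theorem mem_cell_iff_sv {P : Fin n → Pt} {x y : Pt} (hx : x ∈ offLines P) :
    y ∈ cell P x ↔ sv P x = sv P y := by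
  constructor
  · intro h
    funext i j
    by_cases hij : i = j
    · subst hij; simp [sv]
    · exact sign_eq_of_mul_pos (h i j hij)
  · intro h i j hij
    exact mul_pos_of_sign_eq (hx.2 i j hij) (congrFun (congrFun h i) j)

theorem cell_symm {P : Fin n → Pt} {x y : Pt} (h : y ∈ cell P x) : x ∈ cell P y := by
  intro i j hij
  rw [mul_comm]; exact h i j hij

theorem cell_eq_of_mem {P : Fin n → Pt} {x y : Pt} (hx : x ∈ offLines P) (h : y ∈ cell P x) :
    cell P y = cell P x := by
  have hy := cell_sub_offLines hx h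
  ext z
  rw [mem_cell_iff_sv hx, mem_cell_iff_sv hy, (mem_cell_iff_sv hx).mp h]

/-- (R) Representatives exist. -/
theorem exists_reps (P : Fin n → Pt) : ∃ R : Finset Pt, IsReps P R := by
  classical
  -- choose a representative for every realised sign vector
  let S : Finset (Fin n → Fin n → SignType) :=
    Finset.univ.filter (fun σ => ∃ x ∈ offLines P, sv P x = σ)
  have hS : ∀ σ ∈ S, ∃ x ∈ offLines P, sv P x = σ := fun σ hσ => (Finset.mem_filter.mp hσ).2
  choose! f hf1 hf2 using hS
  refine ⟨S.image f, ?_, ?_, ?_⟩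
  · intro x hx
    obtain ⟨σ, hσ, rfl⟩ := Finset.mem_image.mp hx
    exact hf1 σ hσ
  · intro x hx y hy hxy
    obtain ⟨σ, hσ, rfl⟩ := Finset.mem_image.mp hx
    obtain ⟨τ, hτ, rfl⟩ := Finset.mem_image.mp hy
    have := (mem_cell_iff_sv (hf1 σ hσ)).mp hxy
    rw [hf2 σ hσ, hf2 τ hτ] at this
    rw [this]
  · intro x hx
    have hmem : sv P x ∈ S := Finset.mem_filter.mpr ⟨Finset.mem_univ _, x, hx, rfl⟩
    refine ⟨f (sv P x), Finset.mem_image_of_mem f hmem, ?_⟩
    exact (mem_cell_iff_sv hx).mpr (hf2 _ hmem).symm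

/-- Two different lines through two vertices each meet in at most one point. -/
theorem eq_of_two_lines (hn : 3 ≤ n) {P : Fin n → Pt} (hP : Ccw P) {i j k l : Fin n}
    (hij : i < j) (hkl : k < l) (hne : (i, j) ≠ (k, l)) {p q : Pt}
    (h1 : orient (P i) (P j) p = 0) (h2 : orient (P k) (P l) p = 0)
    (h3 : orient (P i) (P j) q = 0) (h4 : orient (P k) (P l) q = 0) : p = q := by
  by_contra hpq
  -- the two lines coincide, so `P k, P l` lie on the line of `P i, P j`
  obtain ⟨s, hs⟩ := exists_param hpq (x := P i) (by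
    have := ccw_ne hn hP hij.ne
    obtain ⟨u, hu⟩ := exists_param this h1
    obtain ⟨v, hv⟩ := exists_param this h3
    rw [hu, hv]; unfold orient; simp; ring)
  obtain ⟨t, ht⟩ := exists_param hpq (x := P j) (by
    have := ccw_ne hn hP hij.ne
    obtain ⟨u, hu⟩ := exists_param this h1
    obtain ⟨v, hv⟩ := exists_param this h3
    rw [hu, hv]; unfold orient; simp; ring)
  have hki : orient (P k) (P l) (P i) = 0 := by rw [hs, orient_param, h2, h4]; ring
  have hkj : orient (P k) (P l) (P j) = 0 := by rw [ht, orient_param, h2, h4]; ring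
  have e1 : i = k ∨ i = l := by
    by_contra hcon
    push Not at hcon
    exact orient_ne hP hkl.ne hcon.1.symm hcon.2.symm hki
  have e2 : j = k ∨ j = l := by
    by_contra hcon
    push Not at hcon
    exact orient_ne hP hkl.ne hcon.1.symm hcon.2.symm hkj
  rcases e1 with rfl | rfl <;> rcases e2 with rfl | rfl
  · exact absurd hij (lt_irrefl _)
  · exact hne rfl
  · exact absurd (lt_trans hij hkl) (lt_irrefl _)
  · exact absurd hij (lt_irrefl _)

/-- (R) The set of crossings is finite. -/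
theorem crossings_finite (hn : 3 ≤ n) {P : Fin n → Pt} (hP : Ccw P) : (crossings P).Finite := by
  classical
  have hex : ∀ p ∈ crossings P, ∃ e : (Fin n × Fin n) × (Fin n × Fin n),
      e.1.1 < e.1.2 ∧ e.2.1 < e.2.2 ∧ e.1 ≠ e.2 ∧ orient (P e.1.1) (P e.1.2) p = 0 ∧
      orient (P e.2.1) (P e.2.2) p = 0 := by
    rintro p ⟨-, i, j, k, l, h1, h2, h3, h4, h5⟩
    exact ⟨((i, j), (k, l)), h1, h2, h3, h4, h5⟩
  haveI : Nonempty (Fin n) := ⟨⟨0, by omega⟩⟩
  choose! f hf using hex
  refine Set.Finite.of_injOn (f := f) (t := Set.univ) (fun _ _ => Set.mem_univ _) ?_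
    Set.finite_univ
  intro p hp q hq hpq
  obtain ⟨h1, h2, h3, h4, h5⟩ := hf p hp
  obtain ⟨-, -, -, h6, h7⟩ := hf q hq
  rw [← hpq] at h6 h7
  exact eq_of_two_lines hn hP h1 h2 (fun h => h3 h) h4 h5 h6 h7

theorem exists_cross (hn : 3 ≤ n) {P : Fin n → Pt} (hP : Ccw P) :
    ∃ Vc : Finset Pt, IsCross P Vc :=
  ⟨(crossings_finite hn hP).toFinset, fun p => by simp⟩

end Pool.H47.Tri
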