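import Pool.Agent.H47.Tri.Poly
import Pool.Agent.H41.Tri.M

/-!
# (G2), (G3) Cells with three and four corners
-/

namespace Pool.H47.Tri

variable {n : ℕ}

theorem OnLine.symm {P : Fin n → Pt} {p q : Pt} (h : OnLine P p q) : OnLine P q p := by
  obtain ⟨i, j, hij, h1, h2⟩ := h
  exact ⟨i, j, hij, h2, h1⟩

theorem orient_hull_nonneg {S : Set Pt} {p q : Pt} (h : ∀ r ∈ S, 0 ≤ orient p q r) :
    ∀ y ∈ convexHull ℝ S, 0 ≤ orient p q y := by
  have hc : Convex ℝ {y | 0 ≤ orient p q y} := by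
    intro y hy z hz a b ha hb hab
    simp only [Set.mem_ofPred_eq] at hy hz ⊢
    rw [orient_comb _ _ _ _ _ _ hab]
    positivity
  exact fun y hy => convexHull_min (t := {y | 0 ≤ orient p q y}) h hc hy

/-- Side lemma. -/
theorem side_lemma (hn : 3 ≤ n) {P : Fin n → Pt} (hP : Ccw P) {x : Pt} (hx : x ∈ offLines P)
    {p q : Pt} (hp : p ∈ corners P x) (hq : q ∈ corners P x) (hpq : p ≠ q)
    (hr : ∀ r ∈ corners P x, 0 ≤ orient p q r) : OnLine P p q ∧ 0 < orient p q x := by
  obtain ⟨-, hhull, hint, -⟩ := ccell_eq hn hP hx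
  have hpos : ∀ y ∈ ccell P x, 0 ≤ orient p q y := by
    rw [hhull]; exact orient_hull_nonneg hr
  obtain ⟨v, hv⟩ := exists_cross_pos (sub_ne_zero.mpr hpq.symm)
  have hstrict : ∀ y ∈ cell P x, 0 < orient p q y := by
    intro y hy
    rw [hint] at hy
    obtain ⟨s, hs, hmem⟩ := escape hy v
    have := hpos _ hmem
    rw [orient_add_smul] at this
    nlinarith [mul_neg_of_neg_of_pos hs hv]
  refine ⟨?_, hstrict x (self_mem_cell hx)⟩
  have hmid : (1 / 2 : ℝ) • p + (1 / 2 : ℝ) • q ∈ ccell P x :=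
    (convex_ccell P x) hp.2 hq.2 (by norm_num) (by norm_num) (by norm_num)
  have hnot : (1 / 2 : ℝ) • p + (1 / 2 : ℝ) • q ∉ cell P x := by
    intro h
    have := hstrict _ h
    rw [orient_comb _ _ _ _ _ _ (by norm_num)] at this
    simp at this
  simp only [cell, Set.mem_ofPred_eq] at hnot
  push Not at hnot
  obtain ⟨i, j, hij, hle⟩ := hnot
  have h0 : orient (P i) (P j) x * orient (P i) (P j) ((1 / 2 : ℝ) • p + (1 / 2 : ℝ) • q) = 0 :=
    le_antisymm hle (hmid i j)
  rw [orient_comb _ _ _ _ _ _ (by norm_num)] at h0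
  have hxo := hx.2 i j hij
  have h1 := hp.2 i j
  have h2 := hq.2 i j
  have e1 : orient (P i) (P j) x * orient (P i) (P j) p = 0 := by nlinarith
  have e2 : orient (P i) (P j) x * orient (P i) (P j) q = 0 := by nlinarith
  have f1 : orient (P i) (P j) p = 0 := (mul_eq_zero.mp e1).resolve_left hxo
  have f2 : orient (P i) (P j) q = 0 := (mul_eq_zero.mp e2).resolve_left hxo
  rcases lt_or_gt_of_ne hij with h | h
  · exact ⟨i, j, h, f1, f2⟩
  · exact ⟨j, i, h, by rw [orient_swap, f1, neg_zero], by rw [orient_swap, f2, neg_zero]⟩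

/-- The closed cell is not contained in a line. -/
theorem not_flat {P : Fin n → Pt} (hn : 3 ≤ n) (hP : Ccw P) {x : Pt} (hx : x ∈ offLines P)
    {p q : Pt} (hpq : p ≠ q) (h : ∀ r ∈ corners P x, orient p q r = 0) : False := by
  obtain ⟨-, hhull, hint, -⟩ := ccell_eq hn hP hx
  have h1 : ∀ y ∈ ccell P x, 0 ≤ orient p q y := by
    rw [hhull]; exact orient_hull_nonneg fun r hr => (h r hr).ge
  have h2 : ∀ y ∈ ccell P x, 0 ≤ orient q p y := by
    rw [hhull]; exact orient_hull_nonneg fun r hr => by rw [orient_swap, h r hr, neg_zero]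
  obtain ⟨v, hv⟩ := exists_cross_pos (sub_ne_zero.mpr hpq.symm)
  have hxi : x ∈ interior (ccell P x) := hint ▸ self_mem_cell hx
  obtain ⟨s, hs, hmem⟩ := escape hxi v
  have e1 := h1 _ hmem
  have e2 := h2 x (interior_subset hxi)
  rw [orient_add_smul] at e1
  rw [orient_swap] at e2
  nlinarith [mul_neg_of_neg_of_pos hs hv]

theorem flags_finite (hn : 3 ≤ n) {P : Fin n → Pt} (hP : Ccw P) (x : Pt) :
    {e : Pt × Pt | Flag P x e.1 e.2}.Finite := by
  refine ((corners_finite hn hP x).prod (corners_finite hn hP x)).subset ?_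
  rintro ⟨p, q⟩ h
  exact ⟨h.1, h.2.1⟩

theorem cross_sub (p q r : Pt) : cross (r - p) (r - q) = orient p q r := by
  simp [cross, orient]; ring

/-- Flags of a ccw triangle. -/
theorem tri_flags (hn : 3 ≤ n) {P : Fin n → Pt} (hP : Ccw P) {x : Pt} (hx : x ∈ offLines P)
    {p q r : Pt} (hc : corners P x = {p, q, r}) (h : 0 < orient p q r) :
    3 ≤ {e : Pt × Pt | Flag P x e.1 e.2}.ncard := by
  have hp : p ∈ corners P x := by rw [hc]; simp
  have hq : q ∈ corners P x := by rw [hc]; simp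
  have hr : r ∈ corners P x := by rw [hc]; simp
  have h2 : 0 < orient q r p := by rw [← orient_cyc]; exact h
  have h3 : 0 < orient r p q := by rw [← orient_cyc]; exact h2
  have hpq : p ≠ q := by rintro rfl; simp at h
  have hqr : q ≠ r := by rintro rfl; simp at h
  have hrp : r ≠ p := by rintro rfl; simp at h
  obtain ⟨l1, o1⟩ := side_lemma hn hP hx hp hq hpq (by
    intro s hs; rw [hc] at hs; rcases hs with rfl | rfl | rfl
    · simp
    · simp
    · exact h.le)
  obtain ⟨l2, o2⟩ := side_lemma hn hP hx hq hr hqr (by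
    intro s hs; rw [hc] at hs; rcases hs with rfl | rfl | rfl
    · exact h2.le
    · simp
    · simp)
  obtain ⟨l3, o3⟩ := side_lemma hn hP hx hr hp hrp (by
    intro s hs; rw [hc] at hs; rcases hs with rfl | rfl | rfl
    · simp
    · exact h3.le
    · simp)
  have F1 : Flag P x p q := ⟨hp, hq, hpq, l1, o1, r, r, hr, hr, l3.symm, l2, h, h,
    Or.inl (by rw [cross_sub]; exact h)⟩
  have F2 : Flag P x q r := ⟨hq, hr, hqr, l2, o2, p, p, hp, hp, l1.symm, l3, h2, h2,
    Or.inl (by rw [cross_sub]; exact h2)⟩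
  have F3 : Flag P x r p := ⟨hr, hp, hrp, l3, o3, q, q, hq, hq, l2.symm, l1, h3, h3,
    Or.inl (by rw [cross_sub]; exact h3)⟩
  have hsub : ({(p, q), (q, r), (r, p)} : Set (Pt × Pt)) ⊆ {e : Pt × Pt | Flag P x e.1 e.2} := by
    rintro e (rfl | rfl | rfl)
    · exact F1
    · exact F2
    · exact F3
  have hcard : ({(p, q), (q, r), (r, p)} : Set (Pt × Pt)).ncard = 3 := by
    rw [Set.ncard_eq_three]
    refine ⟨_, _, _, ?_, ?_, ?_, rfl⟩
    · intro e; exact hpq (Prod.ext_iff.mp e).1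
    · intro e; exact hrp (Prod.ext_iff.mp e).1.symm
    · intro e; exact hqr (Prod.ext_iff.mp e).1
  calc 3 = _ := hcard.symm
    _ ≤ _ := Set.ncard_le_ncard hsub (flags_finite hn hP x)

/-- (G2) -/
theorem three_corners (hn : 3 ≤ n) {P : Fin n → Pt} (hP : Ccw P) {x : Pt} (hx : x ∈ offLines P) :
    3 ≤ (corners P x).ncard ∧ ((corners P x).ncard = 3 →
      IsOpenTriangle (cell P x) ∧ 3 ≤ {e : Pt × Pt | Flag P x e.1 e.2}.ncard) := by
  obtain ⟨hfin, hhull, hint, -⟩ := ccell_eq hn hP hx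
  constructor
  · by_contra hlt
    push Not at hlt
    obtain ⟨p, q, hpq, hsub⟩ : ∃ p q : Pt, p ≠ q ∧ corners P x ⊆ {p, q} := by
      have h3 : (corners P x).ncard = 0 ∨ (corners P x).ncard = 1 ∨ (corners P x).ncard = 2 := by
        omega
      rcases h3 with h | h | h
      · rw [Set.ncard_eq_zero hfin] at h
        exact ⟨(0, 0), (1, 0), by simp, by rw [h]; exact Set.empty_subset _⟩
      · obtain ⟨p, hp⟩ := Set.ncard_eq_one.mp h
        refine ⟨p, p + (1, 0), ?_, by rw [hp]; simp⟩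
        intro e
        have := congrArg Prod.fst e
        simp at this
      · obtain ⟨p, q, hpq, hp⟩ := Set.ncard_eq_two.mp h
        exact ⟨p, q, hpq, hp.le⟩
    refine not_flat hn hP hx hpq fun r hr => ?_
    rcases hsub hr with rfl | rfl <;> simp
  · intro h3
    obtain ⟨p, q, r, hpq, hpr, hqr, hc⟩ := Set.ncard_eq_three.mp h3
    have hne : orient p q r ≠ 0 := by
      intro h0
      refine not_flat hn hP hx hpq fun s hs => ?_
      rw [hc] at hs
      rcases hs with rfl | rfl | rfl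
      · simp
      · simp
      · exact h0
    refine ⟨⟨p, q, r, hne, by rw [hint, hhull, hc]⟩, ?_⟩
    rcases lt_or_gt_of_ne hne with h | h
    · refine tri_flags hn hP hx (p := p) (q := r) (r := q) ?_ ?_
      · rw [hc]; ext s; simp only [Set.mem_insert_iff, Set.mem_singleton_iff]; tauto
      · rw [orient_swap']; linarith
    · exact tri_flags hn hP hx hc h

end Pool.H47.Tri
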